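import Pool.Agent.W664.Fill.Kern

/-! # A faster finite check with packed matrices

A square matrix of integers is stored as one natural number, with the entries, shifted to be
positive, as its digits in base `2 ^ K`.  The elimination of one variable then takes a few
operations on natural numbers. -/

namespace Pool.Agent.TH502.FA

open Pool.Agent.W664.Fill

/-- `1 + t + ... + t ^ (n - 1)`. -/
noncomputable def gs (t n : Nat) : Nat :=
  Nat.rec (motive := fun _ => Nat) 0 (fun _ ih => Nat.add (Nat.mul t ih) 1) n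

/-- The base. -/
noncomputable def TT (K : Nat) : Nat := Nat.pow 2 K

/-- The base of the rows. -/
noncomputable def TW (K W : Nat) : Nat := Nat.pow 2 (Nat.mul K W)

/-- A row of ones. -/
noncomputable def J1 (K n : Nat) : Nat := gs (TT K) n

/-- A column of ones. -/
noncomputable def J2 (K W n : Nat) : Nat := gs (TW K W) n

/-- The matrix of ones. -/
noncomputable def JJ (K W n : Nat) : Nat := Nat.mul (J1 K n) (J2 K W n)

/-- The mask of the first column. -/
noncomputable def CM (K W n : Nat) : Nat := Nat.mul (Nat.sub (TT K) 1) (J2 K W n)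

/-- The identity matrix. -/
noncomputable def DG (K W n : Nat) : Nat := gs (Nat.pow 2 (Nat.mul K (Nat.succ W))) n

/-- The mask of the low `b` bits of the digits. -/
noncomputable def MB (K W n b : Nat) : Nat := Nat.mul (Nat.sub (Nat.pow 2 b) 1) (JJ K W n)

/-- The matrix with all entries `2 ^ c`. -/
noncomputable def CJ (K W n c : Nat) : Nat := Nat.mul (Nat.pow 2 c) (JJ K W n)

/-- All entries `2 ^ b`, minus `n` on the diagonal. -/
noncomputable def BN (K W n b : Nat) : Nat := Nat.sub (CJ K W n b) (Nat.mul n (DG K W n))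

/-- Range check and rounding of the digits. -/
noncomputable def ren (K W n n' b c s sh Z : Nat) (k : Nat → Bool) : Bool :=
  (fun V => Bool.rec (motive := fun _ => Bool) false
    (k (Nat.land (Nat.shiftRight V (Nat.add s sh)) (MB K W n' b)))
    (Nat.beq Z (Nat.add V (CJ K W n c))))
    (Nat.land Z (MB K W n (Nat.add b s)))

/-- One elimination step, digits with bias `2 ^ b` and at most `b + 1` bits; `q` is an upper
bound of `2 ^ t` divided by the pivot. -/
noncomputable def stp (K W n n' b c t X q h g : Nat) (k : Nat → Bool) : Bool :=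
  ren K W n n' (Nat.succ b) c t (Nat.mul K (Nat.succ W))
    (Nat.sub
      (Nat.add (Nat.add (Nat.mul (Nat.pow 2 t) X) (Nat.mul (Nat.mul q (Nat.pow 2 b))
          (Nat.add (Nat.mul (J1 K n) g) (Nat.mul (J2 K W n) h)))) (CJ K W n c))
      (Nat.add (Nat.mul q (Nat.add (Nat.mul h g) (CJ K W n (Nat.mul 2 b))))
        (Nat.mul (Nat.mul (Nat.pow 2 t) n) (DG K W n)))) k

/-- Elimination of a matrix of size `r + 1`, with pivots at least `2 ^ l`. -/
noncomputable def elim (K W b c t l : Nat) (r : Nat) : Nat → Bool :=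
  Nat.rec (motive := fun _ => Nat → Bool)
    (fun X => Nat.ble (Nat.succ (Nat.pow 2 b)) (Nat.mod X (TT K)))
    (fun r' ih X => Bool.rec (motive := fun _ => Bool) false
      (stp K W (Nat.add r' 2) (Nat.add r' 1) b c t X
        (Nat.succ (Nat.div (Nat.pow 2 t) (Nat.sub (Nat.mod X (TT K)) (Nat.pow 2 b))))
        (Nat.mod X (TW K W)) (Nat.land X (CM K W (Nat.add r' 2))) ih)
      (Nat.ble (Nat.add (Nat.pow 2 b) (Nat.pow 2 l)) (Nat.mod X (TT K)))) r

/-- Accumulates the product of the antisymmetric matrix with itself, with weights. -/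
noncomputable def fm (K W e g : Nat) (k : Nat → Nat → Bool) (n : Nat) :
    Nat → Nat → Nat → Nat → Nat → Bool :=
  Nat.rec (motive := fun _ => Nat → Nat → Nat → Nat → Nat → Bool) (fun _ _ _ P Q => k P Q)
    (fun _ ih B C L P Q => Bool.rec (motive := fun _ => Bool) false
      ((fun E r c => ih (Nat.shiftRight B (Nat.mul K W)) (Nat.shiftRight C K)
          (Nat.shiftRight L 20)
          (Nat.add P (Nat.mul E (Nat.add (Nat.mul r c) (CJ K W W (Nat.mul 2 g)))))
          (Nat.add Q (Nat.mul E (Nat.add (Nat.mul (J1 K W) c) (Nat.mul (J2 K W W) r)))))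
        (Nat.succ (Nat.div (Nat.pow 2 e) (Nat.mod L 1048576)))
        (Nat.mod B (TW K W)) (Nat.land C (CM K W W)))
      (Nat.ble 1 (Nat.mod L 1048576))) n

/-- The packed diagonal matrix. -/
noncomputable def dgL (K W n : Nat) : Nat → Nat :=
  Nat.rec (motive := fun _ => Nat → Nat) (fun _ => 0)
    (fun _ ih L => Nat.add (Nat.mod L 1048576)
      (Nat.mul (Nat.pow 2 (Nat.mul K (Nat.succ W))) (ih (Nat.shiftRight L 20)))) n

/-- Digit of the table with digits of `g + 1` bits. -/
noncomputable def tdg (tbl g q : Nat) : Nat :=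
  Nat.mod (Nat.shiftRight tbl q) (Nat.pow 2 (Nat.succ g))

/-- Evaluates the argument. -/
noncomputable def frc {α : Type} (f : Nat → α) (x : Nat) : α :=
  Nat.rec (motive := fun _ => α) (f 0) (fun m _ => f (Nat.succ m)) x

/-- A row of the matrix, in base `M`. -/
noncomputable def rwP (tbl g M : Nat) (n : Nat) : Nat → Nat → Nat :=
  Nat.rec (motive := fun _ => Nat → Nat → Nat) (fun _ _ => 0)
    (fun _ ih q y => Nat.add (tdg tbl g (Nat.add q (Nat.mul (Nat.succ g) (Nat.mod y 16))))
      (Nat.mul M (frc (ih (Nat.add q (Nat.mul 256 (Nat.succ g)))) (Nat.div y 16)))) n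

/-- A column of the matrix, in base `M`. -/
noncomputable def rwN (tbl g M : Nat) (n : Nat) : Nat → Nat → Nat :=
  Nat.rec (motive := fun _ => Nat → Nat → Nat) (fun _ _ => 0)
    (fun _ ih q y => Nat.add (Nat.sub (Nat.pow 2 (Nat.succ g))
        (tdg tbl g (Nat.add q (Nat.mul (Nat.succ g) (Nat.mod y 16)))))
      (Nat.mul M (frc (ih (Nat.add q (Nat.mul 256 (Nat.succ g)))) (Nat.div y 16)))) n

/-- The packed antisymmetric matrix. -/
noncomputable def fA (tbl g K W : Nat) (n : Nat) : Nat → Nat :=
  Nat.rec (motive := fun _ => Nat → Nat) (fun _ => 0)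
    (fun n' ih x => frc (fun k => frc (fun y => Nat.add (Nat.add (Nat.pow 2 g)
        (Nat.mul (TT K) (rwP tbl g (TT K) n'
          (Nat.mul (Nat.succ g) (Nat.add 256 (Nat.mul 16 k))) y)))
      (Nat.add (Nat.mul (TW K W) (rwN tbl g (TW K W) n'
          (Nat.mul (Nat.succ g) (Nat.add 256 (Nat.mul 16 k))) y))
        (Nat.mul (Nat.pow 2 (Nat.mul K (Nat.succ W))) (ih y)))) (Nat.div x 16)) (Nat.mod x 16)) n

/-- The check at one configuration. -/
noncomputable def leafN (tbl g K W b c t l e s0 s2 x L : Nat) : Bool :=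
  Bool.rec (motive := fun _ => Bool) false
    ((fun A => fm K W e g (fun P Q => ren K W W W (Nat.succ b) c s0 0
        (Nat.sub (Nat.add (Nat.add P (Nat.mul (Nat.pow 2 e) (dgL K W W L)))
          (Nat.add (Nat.mul (Nat.pow 2 s0) (BN K W W b)) (CJ K W W c))) (Nat.mul (Nat.pow 2 g) Q))
        (elim K W b c t l (Nat.sub W 1))) W A A L 0 0) (fA tbl g K W W x))
    (Nat.ble (dsum W L) s2)

/-- The check at all configurations of a list. -/
noncomputable def chkN (tbl g K W b c t l e s0 s2 : Nat) (d : D) : Bool :=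
  D.rec (motive := fun _ => Bool) true
    (fun x L _ ih => Bool.rec (motive := fun _ => Bool) false ih
      (leafN tbl g K W b c t l e s0 s2 x L)) d

end Pool.Agent.TH502.FA
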