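import Mathlib
import Pool.Agent.TH502.FA.KernN

/-! # Packed vectors and matrices of natural numbers -/

namespace Pool.Agent.TH502.FA

open Finset

/-- The number with digits `x 0, ..., x (L - 1)` in base `2 ^ K`. -/
def ev (K L : ℕ) (x : ℕ → ℕ) : ℕ := ∑ i ∈ range L, x i * 2 ^ (K * i)

lemma ev_zero (K : ℕ) (x : ℕ → ℕ) : ev K 0 x = 0 := by simp [ev]

lemma ev_succ (K L : ℕ) (x : ℕ → ℕ) :
    ev K (L + 1) x = x 0 + 2 ^ K * ev K L (fun i => x (i + 1)) := by
  unfold ev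
  rw [Finset.sum_range_succ', Finset.mul_sum]
  have h : ∀ i, x (i + 1) * 2 ^ (K * (i + 1)) = 2 ^ K * (x (i + 1) * 2 ^ (K * i)) := by
    intro i
    rw [mul_add, pow_add, mul_one]
    ring
  rw [Finset.sum_congr rfl (fun i _ => h i)]
  simp only [mul_zero, pow_zero, mul_one]
  rw [add_comm]

lemma ev_congr {K L : ℕ} {x y : ℕ → ℕ} (h : ∀ i < L, x i = y i) : ev K L x = ev K L y := by
  unfold ev
  exact Finset.sum_congr rfl (fun i hi => by rw [h i (Finset.mem_range.mp hi)])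

lemma ev_add (K L : ℕ) (x y : ℕ → ℕ) : ev K L x + ev K L y = ev K L (fun i => x i + y i) := by
  unfold ev
  rw [← Finset.sum_add_distrib]
  exact Finset.sum_congr rfl (fun i _ => by ring)

lemma ev_mul (K L : ℕ) (c : ℕ) (x : ℕ → ℕ) : c * ev K L x = ev K L (fun i => c * x i) := by
  unfold ev
  rw [Finset.mul_sum]
  exact Finset.sum_congr rfl (fun i _ => by ring)

lemma ev_lt (K : ℕ) : ∀ (L : ℕ) (x : ℕ → ℕ), (∀ i < L, x i < 2 ^ K) → ev K L x < 2 ^ (K * L)
  | 0, x, _ => by simp [ev]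
  | L + 1, x, h => by
    have ih := ev_lt K L (fun i => x (i + 1)) (fun i hi => h (i + 1) (by omega))
    have h0 := h 0 (by omega)
    rw [ev_succ, mul_add, mul_one, pow_add, mul_comm (2 ^ (K * L)) (2 ^ K)]
    calc x 0 + 2 ^ K * ev K L (fun i => x (i + 1))
        < 2 ^ K + 2 ^ K * ev K L (fun i => x (i + 1)) := by omega
      _ = 2 ^ K * (ev K L (fun i => x (i + 1)) + 1) := by ring
      _ ≤ 2 ^ K * 2 ^ (K * L) := Nat.mul_le_mul_left _ ih

lemma ev_dg (K : ℕ) : ∀ (L : ℕ) (x : ℕ → ℕ), (∀ i < L, x i < 2 ^ K) → ∀ i < L,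
    ev K L x / 2 ^ (K * i) % 2 ^ K = x i
  | 0, _, _, i, hi => by omega
  | L + 1, x, h, i, hi => by
    have h0 := h 0 (by omega)
    rw [ev_succ]
    rcases i with _ | i
    · rw [mul_zero, pow_zero, Nat.div_one, Nat.add_mul_mod_self_left, Nat.mod_eq_of_lt h0]
    · have ih := ev_dg K L (fun i => x (i + 1)) (fun i hi => h (i + 1) (by omega)) i (by omega)
      have hp : 0 < 2 ^ K := by positivity
      rw [mul_add, mul_one, Nat.add_comm (K * i) K, pow_add, ← Nat.div_div_eq_div_mul,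
        Nat.add_mul_div_left _ _ hp, Nat.div_eq_of_lt h0, Nat.zero_add]
      exact ih

/-- Splitting of the bitwise conjunction. -/
lemma land_split (K u v u' v' : ℕ) (hu : u < 2 ^ K) (hu' : u' < 2 ^ K) :
    (u + 2 ^ K * v) &&& (u' + 2 ^ K * v') = (u &&& u') + 2 ^ K * (v &&& v') := by
  apply Nat.eq_of_testBit_eq
  intro j
  have h3 : (u &&& u') < 2 ^ K := Nat.and_lt_two_pow _ hu'
  rw [Nat.testBit_and, Nat.add_comm u, Nat.add_comm u', Nat.add_comm (u &&& u'),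
    Nat.testBit_two_pow_mul_add _ hu, Nat.testBit_two_pow_mul_add _ hu',
    Nat.testBit_two_pow_mul_add _ h3]
  split_ifs with h
  · rw [Nat.testBit_and]
  · rw [Nat.testBit_and]

lemma land_ev (K : ℕ) : ∀ (L Y : ℕ) (m : ℕ → ℕ), (∀ i < L, m i < 2 ^ K) →
    Y &&& ev K L m = ev K L (fun i => (Y / 2 ^ (K * i) % 2 ^ K) &&& m i)
  | 0, Y, m, _ => by simp [ev]
  | L + 1, Y, m, h => by
    have h0 := h 0 (by omega)
    have hY : Y = Y % 2 ^ K + 2 ^ K * (Y / 2 ^ K) := (Nat.mod_add_div _ _).symm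
    have ih := land_ev K L (Y / 2 ^ K) (fun i => m (i + 1)) (fun i hi => h (i + 1) (by omega))
    rw [ev_succ, ev_succ]
    conv_lhs => rw [hY]
    rw [land_split K _ _ _ _ (Nat.mod_lt _ (by positivity)) h0, ih]
    simp only [mul_zero, pow_zero, Nat.div_one]
    congr 2
    apply ev_congr
    intro i _
    rw [Nat.div_div_eq_div_mul, ← pow_add, mul_add, mul_one, Nat.add_comm K (K * i)]

lemma mod_div_mod (Z a b c : ℕ) (h : b + c ≤ a) :
    Z % 2 ^ a / 2 ^ b % 2 ^ c = Z / 2 ^ b % 2 ^ c := by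
  obtain ⟨d, rfl⟩ : ∃ d, a = b + c + d := ⟨a - (b + c), by omega⟩
  have e : 2 ^ (b + c + d) = 2 ^ b * 2 ^ (c + d) := by rw [← pow_add]; congr 1; omega
  rw [e, Nat.mod_mul_right_div_self]
  rw [pow_add 2 c d]
  exact Nat.mod_mod_of_dvd _ (Dvd.intro _ rfl)

/-- The packed matrix with entry `x j k` at position `j + W k`. -/
def mx (K W n : ℕ) (x : ℕ → ℕ → ℕ) : ℕ := ev (K * W) n (fun k => ev K n (fun j => x j k))

lemma mx_congr {K W n : ℕ} {x y : ℕ → ℕ → ℕ} (h : ∀ j < n, ∀ k < n, x j k = y j k) :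
    mx K W n x = mx K W n y :=
  ev_congr (fun k hk => ev_congr (fun j hj => h j hj k hk))

lemma mx_add (K W n : ℕ) (x y : ℕ → ℕ → ℕ) :
    mx K W n x + mx K W n y = mx K W n (fun j k => x j k + y j k) := by
  unfold mx
  rw [ev_add]
  simp only [ev_add]

lemma mx_mul (K W n c : ℕ) (x : ℕ → ℕ → ℕ) :
    c * mx K W n x = mx K W n (fun j k => c * x j k) := by
  unfold mx
  rw [ev_mul]
  simp only [ev_mul]

lemma mx_sub (K W n : ℕ) (x y : ℕ → ℕ → ℕ) (h : ∀ j < n, ∀ k < n, y j k ≤ x j k) :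
    mx K W n x - mx K W n y = mx K W n (fun j k => x j k - y j k) := by
  have h1 : mx K W n (fun j k => x j k - y j k) + mx K W n y = mx K W n x := by
    rw [mx_add]
    apply mx_congr
    intro j hj k hk
    have := h j hj k hk
    show x j k - y j k + y j k = x j k
    omega
  omega

lemma mx_rows {K W n : ℕ} (hnW : n ≤ W) {x : ℕ → ℕ → ℕ} (hx : ∀ j < n, ∀ k < n, x j k < 2 ^ K) :
    ∀ k < n, ev K n (fun j => x j k) < 2 ^ (K * W) := fun k hk =>
  lt_of_lt_of_le (ev_lt K n _ (fun j hj => hx j hj k hk))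
    (Nat.pow_le_pow_right (by norm_num) (Nat.mul_le_mul_left _ hnW))

lemma mx_dg {K W n : ℕ} (hnW : n ≤ W) {x : ℕ → ℕ → ℕ} (hx : ∀ j < n, ∀ k < n, x j k < 2 ^ K)
    {j k : ℕ} (hj : j < n) (hk : k < n) :
    mx K W n x / 2 ^ (K * (j + W * k)) % 2 ^ K = x j k := by
  have h1 := ev_dg (K * W) n (fun k => ev K n (fun j => x j k)) (mx_rows hnW hx) k hk
  have h2 := ev_dg K n (fun j => x j k) (fun j hj => hx j hj k hk) j hj
  have e : K * (j + W * k) = K * W * k + K * j := by ring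
  have hW : K * j + K ≤ K * W := by
    have : j + 1 ≤ W := by omega
    calc K * j + K = K * (j + 1) := by ring
      _ ≤ K * W := Nat.mul_le_mul_left _ this
  rw [e, pow_add, ← Nat.div_div_eq_div_mul, ← mod_div_mod _ (K * W) (K * j) K hW]
  show (mx K W n x / 2 ^ (K * W * k) % 2 ^ (K * W)) / 2 ^ (K * j) % 2 ^ K = x j k
  unfold mx
  rw [h1]
  exact h2

lemma mx_land {K W n : ℕ} (hnW : n ≤ W) (Y : ℕ) {m : ℕ → ℕ → ℕ}
    (hm : ∀ j < n, ∀ k < n, m j k < 2 ^ K) :
    Y &&& mx K W n m = mx K W n (fun j k => (Y / 2 ^ (K * (j + W * k)) % 2 ^ K) &&& m j k) := by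
  unfold mx
  rw [land_ev (K * W) n Y _ (mx_rows hnW hm)]
  apply ev_congr
  intro k hk
  rw [land_ev K n _ _ (fun j hj => hm j hj k hk)]
  apply ev_congr
  intro j hj
  have e : K * (j + W * k) = K * W * k + K * j := by ring
  have hW : K * j + K ≤ K * W := by
    have : j + 1 ≤ W := by omega
    calc K * j + K = K * (j + 1) := by ring
      _ ≤ K * W := Nat.mul_le_mul_left _ this
  show (Y / 2 ^ (K * W * k) % 2 ^ (K * W) / 2 ^ (K * j) % 2 ^ K) &&& m j k
    = (Y / 2 ^ (K * (j + W * k)) % 2 ^ K) &&& m j k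
  rw [e, pow_add, ← Nat.div_div_eq_div_mul, mod_div_mod _ (K * W) (K * j) K hW]

lemma mx_outer (K W n : ℕ) (u v : ℕ → ℕ) :
    ev K n u * ev (K * W) n v = mx K W n (fun j k => u j * v k) := by
  unfold mx
  rw [ev_mul]
  apply ev_congr
  intro k _
  rw [mul_comm, ev_mul]
  exact ev_congr (fun j _ => mul_comm _ _)

lemma gs_eq (t : ℕ) : ∀ n, gs t n = ∑ i ∈ range n, t ^ i
  | 0 => by simp [gs]
  | n + 1 => by
    have h : gs t (n + 1) = t * gs t n + 1 := rfl
    rw [h, gs_eq t n, Finset.sum_range_succ', Finset.mul_sum]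
    simp only [pow_zero]
    congr 1
    exact Finset.sum_congr rfl (fun i _ => by ring)

lemma gs_ev (K n : ℕ) : gs (2 ^ K) n = ev K n (fun _ => 1) := by
  rw [gs_eq]
  unfold ev
  exact Finset.sum_congr rfl (fun i _ => by rw [one_mul, pow_mul])

lemma J1_eq (K n : ℕ) : J1 K n = ev K n (fun _ => 1) := gs_ev K n

lemma J2_eq (K W n : ℕ) : J2 K W n = ev (K * W) n (fun _ => 1) := gs_ev (K * W) n

lemma JJ_eq (K W n : ℕ) : JJ K W n = mx K W n (fun _ _ => 1) := by
  have h : JJ K W n = J1 K n * J2 K W n := rfl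
  rw [h, J1_eq, J2_eq, mx_outer]

lemma CJ_eq (K W n c : ℕ) : CJ K W n c = mx K W n (fun _ _ => 2 ^ c) := by
  have h : CJ K W n c = 2 ^ c * JJ K W n := rfl
  rw [h, JJ_eq, mx_mul]
  simp

lemma MB_eq (K W n b : ℕ) : MB K W n b = mx K W n (fun _ _ => 2 ^ b - 1) := by
  have h : MB K W n b = (2 ^ b - 1) * JJ K W n := rfl
  rw [h, JJ_eq, mx_mul]
  simp

lemma CM_eq (K W n : ℕ) : CM K W n = ev (K * W) n (fun _ => 2 ^ K - 1) := by
  have h : CM K W n = (2 ^ K - 1) * J2 K W n := rfl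
  rw [h, J2_eq, ev_mul]
  simp

lemma DG_eq (K W n : ℕ) : DG K W n = mx K W n (fun j k => if j = k then 1 else 0) := by
  have h : DG K W n = gs (2 ^ (K * (W + 1))) n := rfl
  rw [h, gs_eq]
  unfold mx ev
  apply Finset.sum_congr rfl
  intro k hk
  have hk' := Finset.mem_range.mp hk
  have e : ∑ i ∈ range n, (if i = k then 1 else 0) * 2 ^ (K * i) = 2 ^ (K * k) := by
    rw [Finset.sum_eq_single k]
    · simp
    · intro b _ hb
      simp [hb]
    · intro hh
      exact absurd hk hh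
  show (2 ^ (K * (W + 1))) ^ k
    = (∑ i ∈ range n, (if i = k then 1 else 0) * 2 ^ (K * i)) * 2 ^ (K * W * k)
  rw [e, ← pow_mul, ← pow_add]
  congr 1
  ring

/-- Extraction of the first row. -/
lemma mx_row {K W n : ℕ} (hnW : n ≤ W) (hn : 0 < n) {x : ℕ → ℕ → ℕ}
    (hx : ∀ j < n, ∀ k < n, x j k < 2 ^ K) :
    mx K W n x % TW K W = ev K n (fun j => x j 0) := by
  have h1 := ev_dg (K * W) n (fun k => ev K n (fun j => x j k)) (mx_rows hnW hx) 0 hn
  rw [mul_zero, pow_zero, Nat.div_one] at h1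
  exact h1

/-- Extraction of a column. -/
lemma land_CM (K W n Y : ℕ) (hW : 0 < W) : Y &&& CM K W n
    = ev (K * W) n (fun k => Y / 2 ^ (K * W * k) % 2 ^ K) := by
  rw [CM_eq, land_ev]
  · apply ev_congr
    intro k _
    show (Y / 2 ^ (K * W * k) % 2 ^ (K * W)) &&& (2 ^ K - 1) = _
    rw [Nat.and_two_pow_sub_one_eq_mod]
    apply Nat.mod_mod_of_dvd
    apply pow_dvd_pow
    exact Nat.le_mul_of_pos_right _ hW
  · intro i _
    have h1 : (2 : ℕ) ^ K ≤ 2 ^ (K * W) :=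
      Nat.pow_le_pow_right (by norm_num) (Nat.le_mul_of_pos_right _ hW)
    have h2 : 0 < (2 : ℕ) ^ K := by positivity
    omega

/-- Extraction of the first column. -/
lemma mx_col {K W n : ℕ} (hnW : n ≤ W) (hn : 0 < n) {x : ℕ → ℕ → ℕ}
    (hx : ∀ j < n, ∀ k < n, x j k < 2 ^ K) :
    mx K W n x &&& CM K W n = ev (K * W) n (fun k => x 0 k) := by
  rw [land_CM K W n _ (by omega)]
  apply ev_congr
  intro k hk
  have h := mx_dg hnW hx hn hk
  rw [Nat.zero_add, ← mul_assoc] at h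
  exact h

lemma mx_first {K W n : ℕ} (hnW : n ≤ W) (hn : 0 < n) {x : ℕ → ℕ → ℕ}
    (hx : ∀ j < n, ∀ k < n, x j k < 2 ^ K) :
    mx K W n x % TT K = x 0 0 := by
  have h := mx_dg hnW hx hn hn
  rw [mul_zero, add_zero, mul_zero, pow_zero, Nat.div_one] at h
  exact h

/-- The matrix, its first row and column, and the rest. -/
lemma mx_succ (K W n : ℕ) (x : ℕ → ℕ → ℕ) : mx K W (n + 1) x
    = (x 0 0 + 2 ^ K * ev K n (fun t => x (t + 1) 0))
      + (2 ^ (K * W) * ev (K * W) n (fun t => x 0 (t + 1))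
        + 2 ^ (K * (W + 1)) * mx K W n (fun j k => x (j + 1) (k + 1))) := by
  unfold mx
  rw [ev_succ, ev_succ]
  have h : ev (K * W) n (fun k => ev K (n + 1) (fun j => x j (k + 1)))
      = ev (K * W) n (fun t => x 0 (t + 1))
        + 2 ^ K * ev (K * W) n (fun k => ev K n (fun j => x (j + 1) (k + 1))) := by
    rw [ev_mul, ev_add]
    exact ev_congr (fun k _ => ev_succ K n _)
  rw [h]
  have e : 2 ^ (K * (W + 1)) = 2 ^ (K * W) * 2 ^ K := by
    rw [← pow_add]; congr 1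
  rw [e]
  ring

lemma brec (x y : Bool) : Bool.rec (motive := fun _ => Bool) false x y = (y && x) := by
  cases y <;> rfl

/-- The rounding step. -/
lemma ren_spec {K W n n' b c s o : ℕ} (hnW : n ≤ W) (hn' : n' + o ≤ n) (hbs : b + s < K)
    (hc : c < K) {ζ : ℕ → ℕ → ℕ} (hζ : ∀ j < n, ∀ k < n, ζ j k < 2 ^ K) {k : ℕ → Bool}
    (h : ren K W n n' b c s (K * (o * (W + 1))) (mx K W n ζ) k = true) :
    (∀ i < n, ∀ j < n, ζ i j = 2 ^ c + ζ i j % 2 ^ (b + s)) ∧
    k (mx K W n' (fun i j => ζ (i + o) (j + o) % 2 ^ (b + s) / 2 ^ s)) = true := by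
  have hbsK : (2 : ℕ) ^ (b + s) < 2 ^ K := Nat.pow_lt_pow_right (by norm_num) hbs
  have hcK : (2 : ℕ) ^ (c + 1) ≤ 2 ^ K := Nat.pow_le_pow_right (by norm_num) hc
  have hbK : (2 : ℕ) ^ (b + s + 1) ≤ 2 ^ K := Nat.pow_le_pow_right (by norm_num) hbs
  rw [pow_succ] at hcK hbK
  set V := mx K W n ζ &&& MB K W n (b + s) with hV
  have h1 : ren K W n n' b c s (K * (o * (W + 1))) (mx K W n ζ) k
      = Bool.rec (motive := fun _ => Bool) false
        (k ((V >>> (s + K * (o * (W + 1)))) &&& MB K W n' b))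
        (Nat.beq (mx K W n ζ) (V + CJ K W n c)) := rfl
  rw [h1, brec, Bool.and_eq_true] at h
  obtain ⟨h2, h3⟩ := h
  have h2' : mx K W n ζ = V + CJ K W n c := Nat.eq_of_beq_eq_true h2
  have hmask : ∀ j < n, ∀ k < n, (fun _ _ => 2 ^ (b + s) - 1 : ℕ → ℕ → ℕ) j k < 2 ^ K := by
    intro j _ k _
    show 2 ^ (b + s) - 1 < 2 ^ K
    omega
  have hVe : V = mx K W n (fun i j => ζ i j % 2 ^ (b + s)) := by
    rw [hV, MB_eq, mx_land hnW _ hmask]
    apply mx_congr
    intro i hi j hj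
    show _ &&& (2 ^ (b + s) - 1) = _
    rw [mx_dg hnW hζ hi hj, Nat.and_two_pow_sub_one_eq_mod]
  have hVlt : ∀ i < n, ∀ j < n, (fun i j => ζ i j % 2 ^ (b + s)) i j < 2 ^ K := by
    intro i _ j _
    exact lt_of_lt_of_le (Nat.mod_lt _ (by positivity)) hbsK.le
  have hsum : ∀ i < n, ∀ j < n, (fun i j => ζ i j % 2 ^ (b + s) + 2 ^ c) i j < 2 ^ K := by
    intro i _ j _
    have : ζ i j % 2 ^ (b + s) < 2 ^ (b + s) := Nat.mod_lt _ (by positivity)
    show ζ i j % 2 ^ (b + s) + 2 ^ c < 2 ^ K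
    omega
  refine ⟨?_, ?_⟩
  · intro i hi j hj
    have e1 := mx_dg hnW hζ hi hj
    rw [h2', hVe, CJ_eq, mx_add, mx_dg hnW hsum hi hj] at e1
    omega
  · have e : (V >>> (s + K * (o * (W + 1)))) &&& MB K W n' b
        = mx K W n' (fun i j => ζ (i + o) (j + o) % 2 ^ (b + s) / 2 ^ s) := by
      rw [MB_eq, mx_land (by omega)]
      · apply mx_congr
        intro i hi j hj
        show _ &&& (2 ^ b - 1) = _
        rw [Nat.and_two_pow_sub_one_eq_mod, Nat.shiftRight_eq_div_pow]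
        have e1 := mx_dg hnW hVlt (j := i + o) (k := j + o) (by omega) (by omega)
        rw [← hVe] at e1
        have hd : (2 : ℕ) ^ b ∣ 2 ^ K := pow_dvd_pow _ (by omega)
        rw [Nat.mod_mod_of_dvd _ hd, Nat.div_div_eq_div_mul, ← pow_add]
        have e2 : s + K * (o * (W + 1)) + K * (i + W * j) = K * (i + o + W * (j + o)) + s := by
          ring
        rw [e2, pow_add, ← Nat.div_div_eq_div_mul]
        rw [← mod_div_mod _ K s b (by omega), e1]
        show ζ (i + o) (j + o) % 2 ^ (b + s) / 2 ^ s % 2 ^ b = _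
        apply Nat.mod_eq_of_lt
        rw [Nat.div_lt_iff_lt_mul (by positivity), ← pow_add]
        exact Nat.mod_lt _ (by positivity)
      · intro i _ j _
        have : (2 : ℕ) ^ b ≤ 2 ^ (b + s) := Nat.pow_le_pow_right (by norm_num) (by omega)
        show 2 ^ b - 1 < 2 ^ K
        omega
    rw [← e]
    exact h3

end Pool.Agent.TH502.FA
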