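import Mathlib
import Pool.Agent.TH502.FA.Pack

/-! # Soundness of the elimination of packed matrices -/

namespace Pool.Agent.TH502.FA

open Finset

/-- The quadratic form of a matrix with entries shifted by `2 ^ b`. -/
noncomputable def Qf (b n : ℕ) (x : ℕ → ℕ → ℕ) (y : ℕ → ℝ) : ℝ :=
  ∑ j ∈ range n, ∑ k ∈ range n, ((x j k : ℝ) - 2 ^ b) * (y j * y k)

lemma sum_cs (n : ℕ) (ρ : ℕ → ℕ → ℝ) (c : ℝ) (hρ : ∀ j < n, ∀ k < n, |ρ j k| ≤ c) (hc : 0 ≤ c)
    (y : ℕ → ℝ) :
    0 ≤ c * n * ∑ j ∈ range n, y j ^ 2 + ∑ j ∈ range n, ∑ k ∈ range n, ρ j k * (y j * y k) := by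
  have h1 : ∀ j ∈ range n, ∀ k ∈ range n,
      -(c * ((y j ^ 2 + y k ^ 2) / 2)) ≤ ρ j k * (y j * y k) := by
    intro j hj k hk
    have h2 := hρ j (Finset.mem_range.mp hj) k (Finset.mem_range.mp hk)
    have h3 : |ρ j k * (y j * y k)| ≤ c * ((y j ^ 2 + y k ^ 2) / 2) := by
      rw [abs_mul]
      apply mul_le_mul h2 _ (abs_nonneg _) hc
      rw [abs_le]
      constructor <;> nlinarith [sq_nonneg (y j - y k), sq_nonneg (y j + y k)]
    exact neg_le_of_abs_le h3
  have h4 : ∑ j ∈ range n, ∑ k ∈ range n, -(c * ((y j ^ 2 + y k ^ 2) / 2))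
      ≤ ∑ j ∈ range n, ∑ k ∈ range n, ρ j k * (y j * y k) :=
    Finset.sum_le_sum (fun j hj => Finset.sum_le_sum (fun k hk => h1 j hj k hk))
  have h5 : ∑ j ∈ range n, ∑ k ∈ range n, -(c * ((y j ^ 2 + y k ^ 2) / 2))
      = -(c * n * ∑ j ∈ range n, y j ^ 2) := by
    have e : ∀ j k, -(c * ((y j ^ 2 + y k ^ 2) / 2)) = -(c / 2) * y j ^ 2 + -(c / 2) * y k ^ 2 := by
      intro j k; ring
    simp only [e, Finset.sum_add_distrib, Finset.sum_const, Finset.card_range, nsmul_eq_mul,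
      ← Finset.mul_sum]
    ring
  linarith

/-- The form of the full matrix, from the form of the rest. -/
lemma schur_real (n : ℕ) (S S' : ℕ → ℕ → ℝ) (κ m : ℝ) (hS : 0 < S 0 0) (hκ : 1 / S 0 0 ≤ κ)
    (hsym : ∀ j < n + 1, S j 0 = S 0 j) (hm : (n : ℝ) ≤ m)
    (hρ : ∀ j < n, ∀ k < n, |S (j + 1) (k + 1) - κ * (S (j + 1) 0 * S 0 (k + 1))
      - (if j = k then m else 0) - S' j k| ≤ 1) (y : ℕ → ℝ)
    (hpos : 0 ≤ ∑ j ∈ range n, ∑ k ∈ range n, S' j k * (y (j + 1) * y (k + 1))) :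
    0 ≤ ∑ j ∈ range (n + 1), ∑ k ∈ range (n + 1), S j k * (y j * y k) := by
  set z : ℕ → ℝ := fun j => y (j + 1) with hz
  set w : ℝ := ∑ j ∈ range n, S (j + 1) 0 * z j with hw
  have hexp : ∑ j ∈ range (n + 1), ∑ k ∈ range (n + 1), S j k * (y j * y k)
      = S 0 0 * y 0 ^ 2 + 2 * y 0 * w
        + ∑ j ∈ range n, ∑ k ∈ range n, S (j + 1) (k + 1) * (z j * z k) := by
    rw [Finset.sum_range_succ']
    simp only [Finset.sum_range_succ' _ n]
    rw [Finset.sum_add_distrib]
    have e1 : ∑ j ∈ range n, S (j + 1) 0 * (y (j + 1) * y 0) = y 0 * w := by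
      rw [hw, Finset.mul_sum]
      exact Finset.sum_congr rfl (fun j _ => by ring)
    have e2 : ∑ k ∈ range n, S 0 (k + 1) * (y 0 * y (k + 1)) = y 0 * w := by
      rw [hw, Finset.mul_sum]
      apply Finset.sum_congr rfl
      intro k hk
      have hk' := Finset.mem_range.mp hk
      rw [hsym (k + 1) (by omega)]
      simp only [hz]
      ring
    rw [e1, e2]
    simp only [hz]
    ring
  have hw2 : ∑ j ∈ range n, ∑ k ∈ range n, (S (j + 1) 0 * S 0 (k + 1)) * (z j * z k) = w ^ 2 := by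
    rw [sq, hw, Finset.sum_mul_sum]
    apply Finset.sum_congr rfl
    intro j _
    apply Finset.sum_congr rfl
    intro k hk
    have hk' := Finset.mem_range.mp hk
    rw [← hsym (k + 1) (by omega)]
    ring
  have hdiag : ∑ j ∈ range n, ∑ k ∈ range n, (if j = k then m else 0) * (z j * z k)
      = m * ∑ j ∈ range n, z j ^ 2 := by
    rw [Finset.mul_sum]
    apply Finset.sum_congr rfl
    intro j hj
    rw [Finset.sum_eq_single j]
    · simp [sq]
    · intro k _ hk
      rw [if_neg (Ne.symm hk), zero_mul]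
    · intro h
      exact absurd hj h
  have hcs := sum_cs n (fun j k => S (j + 1) (k + 1) - κ * (S (j + 1) 0 * S 0 (k + 1))
      - (if j = k then m else 0) - S' j k) 1 hρ (by norm_num) z
  have hsplit : ∑ j ∈ range n, ∑ k ∈ range n, (S (j + 1) (k + 1)
      - κ * (S (j + 1) 0 * S 0 (k + 1)) - (if j = k then m else 0) - S' j k) * (z j * z k)
      = ∑ j ∈ range n, ∑ k ∈ range n, S (j + 1) (k + 1) * (z j * z k)
        - κ * ∑ j ∈ range n, ∑ k ∈ range n, (S (j + 1) 0 * S 0 (k + 1)) * (z j * z k)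
        - ∑ j ∈ range n, ∑ k ∈ range n, (if j = k then m else 0) * (z j * z k)
        - ∑ j ∈ range n, ∑ k ∈ range n, S' j k * (z j * z k) := by
    rw [Finset.mul_sum, ← Finset.sum_sub_distrib, ← Finset.sum_sub_distrib,
      ← Finset.sum_sub_distrib]
    apply Finset.sum_congr rfl
    intro j _
    rw [Finset.mul_sum, ← Finset.sum_sub_distrib, ← Finset.sum_sub_distrib,
      ← Finset.sum_sub_distrib]
    apply Finset.sum_congr rfl
    intro k _
    ring
  rw [hsplit, hw2, hdiag] at hcs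
  have hz2 : 0 ≤ ∑ j ∈ range n, z j ^ 2 := Finset.sum_nonneg (fun j _ => sq_nonneg _)
  have hm2 := mul_le_mul_of_nonneg_right hm hz2
  have hpos' : 0 ≤ ∑ j ∈ range n, ∑ k ∈ range n, S' j k * (z j * z k) := hpos
  have hκ2 : 1 / S 0 0 * w ^ 2 ≤ κ * w ^ 2 := mul_le_mul_of_nonneg_right hκ (sq_nonneg _)
  have hsq : 0 ≤ S 0 0 * y 0 ^ 2 + 2 * y 0 * w + 1 / S 0 0 * w ^ 2 := by
    have : S 0 0 * y 0 ^ 2 + 2 * y 0 * w + 1 / S 0 0 * w ^ 2
        = S 0 0 * (y 0 + w / S 0 0) ^ 2 := by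
      field_simp
      ring
    rw [this]
    positivity
  rw [hexp]
  linarith

/-- Numerical conditions on the parameters. -/
structure Ok (K W b c t l : ℕ) : Prop where
  hbt : b + 1 + t < K
  hcK : c < K
  h1 : (2 ^ (t - l) + 1) * 2 ^ (2 * b) + 2 ^ t * W ≤ 2 ^ c
  h2 : 2 ^ t * 2 ^ (b + 1) + (2 ^ (t - l) + 1) * 2 ^ (2 * b) + 2 ^ c < 2 ^ K

lemma mod_div_bounds (x : ℕ) (s : ℕ) : (2:ℝ) ^ s * ((x / 2 ^ s : ℕ) : ℝ) ≤ x ∧
    (x : ℝ) ≤ 2 ^ s * ((x / 2 ^ s : ℕ) : ℝ) + 2 ^ s := by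
  have h1 := Nat.div_add_mod x (2 ^ s)
  have h2 := Nat.mod_lt x (show 0 < 2 ^ s by positivity)
  constructor
  · have : 2 ^ s * (x / 2 ^ s) ≤ x := by omega
    exact_mod_cast this
  · have : x ≤ 2 ^ s * (x / 2 ^ s) + 2 ^ s := by omega
    exact_mod_cast this

/-- Soundness of the elimination. -/
theorem elim_spec {K W b c t l : ℕ} (ok : Ok K W b c t l) (hlt : l ≤ t) : ∀ (r : ℕ), r + 1 ≤ W →
    ∀ (x : ℕ → ℕ → ℕ), (∀ j < r + 1, ∀ k < r + 1, x j k < 2 ^ (b + 1)) →
    (∀ j < r + 1, ∀ k < r + 1, x j k = x k j) →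
    elim K W b c t l r (mx K W (r + 1) x) = true → ∀ y : ℕ → ℝ, 0 ≤ Qf b (r + 1) x y
  | 0, hrW, x, hx, hsym, h, y => by
    have hbK : (2 : ℕ) ^ (b + 1) ≤ 2 ^ K :=
      Nat.pow_le_pow_right (by norm_num) (by have := ok.hbt; omega)
    have hxK : ∀ j < 1, ∀ k < 1, x j k < 2 ^ K := fun j hj k hk =>
      lt_of_lt_of_le (hx j hj k hk) hbK
    have h1 : Nat.ble (2 ^ b + 1) (mx K W (0 + 1) x % TT K) = true := h
    rw [mx_first hrW (by omega) hxK] at h1
    have h2 := Nat.le_of_ble_eq_true h1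
    have h3 : ((2 : ℝ) ^ b + 1) ≤ x 0 0 := by exact_mod_cast h2
    unfold Qf
    simp only [Nat.zero_add, Finset.sum_range_one]
    apply mul_nonneg
    · linarith
    · exact mul_self_nonneg _
  | r + 1, hrW, x, hx, hsym, h, y => by
    have hbt := ok.hbt
    have hbK : (2 : ℕ) ^ (b + 1) ≤ 2 ^ K := Nat.pow_le_pow_right (by norm_num) (by omega)
    have hxK : ∀ j < r + 2, ∀ k < r + 2, x j k < 2 ^ K := fun j hj k hk =>
      lt_of_lt_of_le (hx j hj k hk) hbK
    have h1 : elim K W b c t l (r + 1) (mx K W (r + 1 + 1) x)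
        = Bool.rec (motive := fun _ => Bool) false
          (stp K W (r + 2) (r + 1) b c t (mx K W (r + 1 + 1) x)
            (2 ^ t / (mx K W (r + 1 + 1) x % TT K - 2 ^ b) + 1)
            (mx K W (r + 1 + 1) x % TW K W) (mx K W (r + 1 + 1) x &&& CM K W (r + 2))
            (elim K W b c t l r))
          (Nat.ble (2 ^ b + 2 ^ l) (mx K W (r + 1 + 1) x % TT K)) := rfl
    rw [h1, brec, Bool.and_eq_true, mx_first hrW (by omega) hxK, mx_row hrW (by omega) hxK,
      mx_col hrW (by omega) hxK] at h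
    obtain ⟨h2, h3⟩ := h
    have h2' := Nat.le_of_ble_eq_true h2
    set q := 2 ^ t / (x 0 0 - 2 ^ b) + 1 with hq
    have hl0 : 0 < 2 ^ l := by positivity
    have hp0 : 0 < x 0 0 - 2 ^ b := by omega
    have hqle : q ≤ 2 ^ (t - l) + 1 := by
      have : 2 ^ t / (x 0 0 - 2 ^ b) ≤ 2 ^ t / 2 ^ l :=
        Nat.div_le_div_left (by omega) hl0
      rw [Nat.pow_div hlt (by norm_num)] at this
      omega
    have hqp : 2 ^ t ≤ q * (x 0 0 - 2 ^ b) := by
      have e1 := Nat.div_add_mod (2 ^ t) (x 0 0 - 2 ^ b)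
      have e2 := Nat.mod_lt (2 ^ t) hp0
      rw [hq, add_mul, one_mul, mul_comm]
      omega
    -- the fields of the new matrix before rounding
    set U : ℕ → ℕ → ℕ := fun j k => 2 ^ t * x j k + q * 2 ^ b * (x 0 k + x j 0) + 2 ^ c with hU
    set V : ℕ → ℕ → ℕ := fun j k => q * (x j 0 * x 0 k + 2 ^ (2 * b))
      + 2 ^ t * (r + 2) * (if j = k then 1 else 0) with hV
    have h2b : (2 : ℕ) ^ (2 * b) = 2 ^ b * 2 ^ b := by rw [two_mul, pow_add]
    have hW2 : 2 ^ t * (r + 2) ≤ 2 ^ t * W := Nat.mul_le_mul_left _ hrW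
    have key : ∀ j < r + 2, ∀ k < r + 2, V j k ≤ U j k ∧ U j k < 2 ^ K + V j k := by
      intro j hj k hk
      have a1 := hx j hj 0 (by omega)
      have a2 := hx 0 (by omega) k hk
      have a3 := hx j hj k hk
      have ok1 := ok.h1
      have ok2 := ok.h2
      have hqq : q * 2 ^ (2 * b) ≤ (2 ^ (t - l) + 1) * 2 ^ (2 * b) :=
        Nat.mul_le_mul_right _ hqle
      have hxx : 2 ^ t * x j k ≤ 2 ^ t * 2 ^ (b + 1) := Nat.mul_le_mul_left _ a3.le
      have hδ : 2 ^ t * (r + 2) * (if j = k then 1 else 0) ≤ 2 ^ t * W := by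
        split_ifs
        · omega
        · omega
      rw [pow_succ] at a1 a2
      -- (h - β)(g - β) between -β² and β²
      have hb1 : x j 0 * x 0 k + 2 ^ (2 * b) ≤ 2 ^ b * (x 0 k + x j 0) + 2 ^ (2 * b) := by
        have e : x j 0 * x 0 k ≤ 2 ^ b * (x 0 k + x j 0) := by
          rcases le_total (x j 0) (2 ^ b) with h | h
          · calc x j 0 * x 0 k ≤ 2 ^ b * x 0 k := Nat.mul_le_mul_right _ h
              _ ≤ _ := Nat.mul_le_mul_left _ (by omega)
          · obtain ⟨d, hd⟩ := Nat.exists_eq_add_of_le h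
            have hd2 : d ≤ 2 ^ b := by omega
            rw [hd]
            nlinarith
        omega
      have hb2 : 2 ^ b * (x 0 k + x j 0) ≤ x j 0 * x 0 k + 2 ^ (2 * b) + 2 ^ (2 * b) := by
        rw [h2b]
        rcases le_total (x j 0) (2 ^ b) with h | h
        · obtain ⟨d, hd⟩ := Nat.exists_eq_add_of_le h
          have : 2 ^ b * x j 0 ≤ 2 ^ b * 2 ^ b := Nat.mul_le_mul_left _ h
          have h4 : 2 ^ b * x 0 k = x j 0 * x 0 k + d * x 0 k := by rw [hd]; ring
          have h5 : d * x 0 k ≤ d * (2 * 2 ^ b) := Nat.mul_le_mul_left _ (by omega)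
          have h6 : 2 ^ b * (x j 0 + d) = 2 ^ b * 2 ^ b := by rw [← hd]
          nlinarith
        · obtain ⟨d, hd⟩ := Nat.exists_eq_add_of_le h
          have hd2 : d ≤ 2 ^ b := by omega
          rw [hd]
          nlinarith [Nat.zero_le (d * x 0 k), Nat.mul_le_mul_left (2 ^ b) hd2]
      have hc1 := Nat.mul_le_mul_left q hb1
      have hc2 := Nat.mul_le_mul_left q hb2
      have e1 : q * 2 ^ b * (x 0 k + x j 0) = q * (2 ^ b * (x 0 k + x j 0)) := mul_assoc _ _ _
      have e2 : q * (x j 0 * x 0 k + 2 ^ (2 * b) + 2 ^ (2 * b))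
        = q * (x j 0 * x 0 k + 2 ^ (2 * b)) + q * 2 ^ (2 * b) := mul_add _ _ _
      have e3 : q * (2 ^ b * (x 0 k + x j 0) + 2 ^ (2 * b))
        = q * (2 ^ b * (x 0 k + x j 0)) + q * 2 ^ (2 * b) := mul_add _ _ _
      rw [e2] at hc2
      rw [e3] at hc1
      simp only [hU, hV]
      rw [e1]
      generalize q * (2 ^ b * (x 0 k + x j 0)) = A1 at *
      generalize q * (x j 0 * x 0 k + 2 ^ (2 * b)) = A2 at *
      generalize q * 2 ^ (2 * b) = A3 at *
      generalize (2 ^ (t - l) + 1) * 2 ^ (2 * b) = A4 at *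
      generalize 2 ^ t * (r + 2) * (if j = k then 1 else 0) = A5 at *
      generalize 2 ^ t * x j k = A6 at *
      generalize 2 ^ t * 2 ^ (b + 1) = A7 at *
      generalize 2 ^ t * W = A8 at *
      constructor
      · omega
      · omega
    have hst : stp K W (r + 2) (r + 1) b c t (mx K W (r + 1 + 1) x) q
        (ev K (r + 1 + 1) (fun j => x j 0)) (ev (K * W) (r + 1 + 1) (fun k => x 0 k))
        (elim K W b c t l r)
        = ren K W (r + 2) (r + 1) (b + 1) c t (K * (1 * (W + 1)))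
          (mx K W (r + 2) (fun j k => U j k - V j k)) (elim K W b c t l r) := by
      have e0 : stp K W (r + 2) (r + 1) b c t (mx K W (r + 1 + 1) x) q
        (ev K (r + 1 + 1) (fun j => x j 0)) (ev (K * W) (r + 1 + 1) (fun k => x 0 k))
        (elim K W b c t l r)
        = ren K W (r + 2) (r + 1) (b + 1) c t (K * (W + 1))
          ((2 ^ t * mx K W (r + 2) x + (q * 2 ^ b) *
            (J1 K (r + 2) * ev (K * W) (r + 2) (fun k => x 0 k)
              + J2 K W (r + 2) * ev K (r + 2) (fun j => x j 0)) + CJ K W (r + 2) c)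
          - (q * (ev K (r + 2) (fun j => x j 0) * ev (K * W) (r + 2) (fun k => x 0 k)
              + CJ K W (r + 2) (2 * b)) + (2 ^ t * (r + 2)) * DG K W (r + 2)))
          (elim K W b c t l r) := rfl
      rw [e0, one_mul]
      congr 1
      rw [J1_eq, J2_eq, mul_comm (ev (K * W) (r + 2) fun _ => 1), mx_outer, mx_outer, mx_outer,
        mx_add, mx_mul, mx_mul, mx_add, CJ_eq, mx_add, CJ_eq, mx_add, mx_mul, DG_eq, mx_mul,
        mx_add, mx_sub]
      · apply mx_congr
        intro j _ k _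
        simp only [hU, hV, one_mul, mul_one]
      · intro j hj k hk
        have := (key j hj k hk).1
        simp only [hU, hV] at this
        simpa only [one_mul, mul_one] using this
    rw [hst] at h3
    have hζ : ∀ j < r + 2, ∀ k < r + 2, (fun j k => U j k - V j k) j k < 2 ^ K := by
      intro j hj k hk
      have := key j hj k hk
      show U j k - V j k < 2 ^ K
      omega
    obtain ⟨g1, g2⟩ := ren_spec (o := 1) (n := r + 2) (n' := r + 1) (by omega) (by omega)
      (by omega) ok.hcK hζ h3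
    set x' : ℕ → ℕ → ℕ := fun i j => (U (i + 1) (j + 1) - V (i + 1) (j + 1)) % 2 ^ (b + 1 + t)
      / 2 ^ t with hx'
    have ih := elim_spec ok hlt r (by omega) x' (by
        intro j _ k _
        simp only [hx']
        rw [Nat.div_lt_iff_lt_mul (by positivity), ← pow_add]
        exact Nat.mod_lt _ (by positivity)) (by
        intro j hj k hk
        simp only [hx', hU, hV]
        rw [hsym (j + 1) (by omega) (k + 1) (by omega), hsym 0 (by omega) (k + 1) (by omega),
          hsym 0 (by omega) (j + 1) (by omega)]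
        have e1 : (if j + 1 = k + 1 then 1 else 0) = (if k + 1 = j + 1 then 1 else 0) := by
          split_ifs <;> omega
        rw [e1, mul_comm (x (j + 1) 0), add_comm (x (k + 1) 0)]) g2 (fun i => y (i + 1))
    -- the real inequality
    have hpR : (0 : ℝ) < (x 0 0 : ℝ) - 2 ^ b := by
      have : 2 ^ b < x 0 0 := by omega
      have : ((2 : ℝ) ^ b) < x 0 0 := by exact_mod_cast this
      linarith
    have ht0 : (0 : ℝ) < 2 ^ t := by positivity
    have hfin := schur_real (r + 1) (fun j k => (x j k : ℝ) - 2 ^ b)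
      (fun j k => (x' j k : ℝ) - 2 ^ b) (q / 2 ^ t) (r + 2) hpR (by
        rw [div_le_div_iff₀ hpR ht0, one_mul]
        have e1 : ((2 ^ t : ℕ) : ℝ) ≤ ((q * (x 0 0 - 2 ^ b) : ℕ) : ℝ) := by exact_mod_cast hqp
        rw [Nat.cast_mul, Nat.cast_sub (by omega)] at e1
        push_cast at e1
        exact e1) (by
        intro j hj
        show (x j 0 : ℝ) - 2 ^ b = (x 0 j : ℝ) - 2 ^ b
        rw [hsym j hj 0 (by omega)]) (by push_cast; linarith) (by
        intro j hj k hk
        have f1 := g1 (j + 1) (by omega) (k + 1) (by omega)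
        have f2 := (key (j + 1) (by omega) (k + 1) (by omega)).1
        have f3 := mod_div_bounds ((U (j + 1) (k + 1) - V (j + 1) (k + 1)) % 2 ^ (b + 1 + t)) t
        have f4 : (((U (j + 1) (k + 1) - V (j + 1) (k + 1)) % 2 ^ (b + 1 + t) : ℕ) : ℝ)
            = (U (j + 1) (k + 1) : ℝ) - V (j + 1) (k + 1) - 2 ^ c := by
          have e2 : ((U (j + 1) (k + 1) - V (j + 1) (k + 1) : ℕ) : ℝ)
              = (U (j + 1) (k + 1) : ℝ) - V (j + 1) (k + 1) := Nat.cast_sub f2
          have e3 : ((U (j + 1) (k + 1) - V (j + 1) (k + 1) : ℕ) : ℝ)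
              = 2 ^ c + (((U (j + 1) (k + 1) - V (j + 1) (k + 1)) % 2 ^ (b + 1 + t) : ℕ) : ℝ) := by
            exact_mod_cast f1
          linarith
        rw [f4] at f3
        have f5 : (U (j + 1) (k + 1) : ℝ) - V (j + 1) (k + 1) - 2 ^ c
            = 2 ^ t * (((x (j + 1) (k + 1) : ℝ) - 2 ^ b)
              - q / 2 ^ t * (((x (j + 1) 0 : ℝ) - 2 ^ b) * ((x 0 (k + 1) : ℝ) - 2 ^ b))
              - (if j = k then (r + 2 : ℝ) else 0) + 2 ^ b) := by
          simp only [hU, hV]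
          push_cast
          rw [show (2 : ℝ) ^ (2 * b) = 2 ^ b * 2 ^ b by rw [two_mul, pow_add]]
          by_cases hjk : j = k
          · subst hjk
            simp only [if_true]
            field_simp
            ring
          · have hjk' : ¬ (j + 1 = k + 1) := by omega
            simp only [if_neg hjk, if_neg hjk', mul_zero, add_zero]
            field_simp
            ring
        rw [f5] at f3
        have f6 : (((U (j + 1) (k + 1) - V (j + 1) (k + 1)) % 2 ^ (b + 1 + t) / 2 ^ t : ℕ) : ℝ)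
            = (x' j k : ℝ) := rfl
        rw [f6] at f3
        obtain ⟨f7, f8⟩ := f3
        have f7' := le_of_mul_le_mul_left f7 ht0
        have f8' : ((x (j + 1) (k + 1) : ℝ) - 2 ^ b)
              - q / 2 ^ t * (((x (j + 1) 0 : ℝ) - 2 ^ b) * ((x 0 (k + 1) : ℝ) - 2 ^ b))
              - (if j = k then (r + 2 : ℝ) else 0) + 2 ^ b ≤ x' j k + 1 := by
          apply le_of_mul_le_mul_left _ ht0
          linarith
        rw [abs_le]
        constructor
        · show -1 ≤ ((x (j + 1) (k + 1) : ℝ) - 2 ^ b)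
              - q / 2 ^ t * (((x (j + 1) 0 : ℝ) - 2 ^ b) * ((x 0 (k + 1) : ℝ) - 2 ^ b))
              - (if j = k then (r + 2 : ℝ) else 0) - ((x' j k : ℝ) - 2 ^ b)
          linarith
        · show ((x (j + 1) (k + 1) : ℝ) - 2 ^ b)
              - q / 2 ^ t * (((x (j + 1) 0 : ℝ) - 2 ^ b) * ((x 0 (k + 1) : ℝ) - 2 ^ b))
              - (if j = k then (r + 2 : ℝ) else 0) - ((x' j k : ℝ) - 2 ^ b) ≤ 1
          linarith) y ih
    exact hfin

end Pool.Agent.TH502.FA
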