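import Mathlib
import Pool.Agent.TH502.FA.Elim
import Pool.Agent.W664.Fill.Window

/-! # Soundness of the formation of the packed matrix -/

namespace Pool.Agent.TH502.FA

open Finset

/-- Digit of the packed diagonal. -/
def dL (L i : ℕ) : ℕ := L / 2 ^ (20 * i) % 1048576

lemma dL_shift (L i : ℕ) : dL (L >>> 20) i = dL L (i + 1) := by
  unfold dL
  rw [Nat.shiftRight_eq_div_pow, Nat.div_div_eq_div_mul, ← pow_add]
  congr 3
  ring

lemma dL_zero (L : ℕ) : dL L 0 = L % 1048576 := by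
  unfold dL; simp

lemma dsum_eq : ∀ (n L : ℕ), Pool.Agent.W664.Fill.dsum n L = ∑ i ∈ range n, dL L i
  | 0, L => rfl
  | n + 1, L => by
    rw [Pool.Agent.W664.Fill.dsum_succ, dsum_eq n, Finset.sum_range_succ', dL_zero, add_comm]
    congr 1
    apply Finset.sum_congr rfl
    intro i _
    rw [← dL_shift, Nat.shiftRight_eq_div_pow]

lemma dgL_eq (K W : ℕ) : ∀ (n L : ℕ), dgL K W n L
    = mx K W n (fun j k => if j = k then dL L j else 0)
  | 0, L => by simp [dgL, mx, ev]
  | n + 1, L => by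
    have h : dgL K W (n + 1) L = L % 1048576 + 2 ^ (K * (W + 1)) * dgL K W n (L >>> 20) := rfl
    rw [h, dgL_eq K W n, mx_succ]
    have e1 : ev K n (fun t => if t + 1 = 0 then dL L (t + 1) else 0) = 0 := by
      unfold ev; simp
    have e2 : ev (K * W) n (fun t => if 0 = t + 1 then dL L 0 else 0) = 0 := by
      unfold ev; simp
    rw [e1, e2, mul_zero, mul_zero, add_zero, zero_add, if_pos rfl, dL_zero]
    congr 2
    apply mx_congr
    intro j _ k _
    by_cases hjk : j = k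
    · subst hjk
      rw [if_pos rfl, if_pos rfl, dL_shift]
    · rw [if_neg hjk, if_neg (by omega)]

/-- The weights. -/
def EI (e L i : ℕ) : ℕ := 2 ^ e / dL L i + 1

lemma fm_spec (K W e g : ℕ) (k : ℕ → ℕ → Bool) : ∀ (n B C L P Q : ℕ),
    fm K W e g k n B C L P Q = true →
    (∀ i < n, 1 ≤ dL L i) ∧
    k (P + ∑ i ∈ range n, EI e L i * ((B / 2 ^ (K * W * i) % TW K W)
          * ((C / 2 ^ (K * i)) &&& CM K W W) + CJ K W W (2 * g)))
      (Q + ∑ i ∈ range n, EI e L i * (J1 K W * ((C / 2 ^ (K * i)) &&& CM K W W)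
          + J2 K W W * (B / 2 ^ (K * W * i) % TW K W))) = true
  | 0, B, C, L, P, Q, h => by
    refine ⟨fun i hi => absurd hi (by omega), ?_⟩
    rw [Finset.range_zero, Finset.sum_empty, Finset.sum_empty, add_zero, add_zero]
    exact h
  | n + 1, B, C, L, P, Q, h => by
    have h1 : fm K W e g k (n + 1) B C L P Q = Bool.rec (motive := fun _ => Bool) false
      (fm K W e g k n (B >>> (K * W)) (C >>> K) (L >>> 20)
        (P + (2 ^ e / (L % 1048576) + 1) * ((B % TW K W) * (C &&& CM K W W) + CJ K W W (2 * g)))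
        (Q + (2 ^ e / (L % 1048576) + 1) * (J1 K W * (C &&& CM K W W)
          + J2 K W W * (B % TW K W))))
      (Nat.ble 1 (L % 1048576)) := rfl
    rw [h1, brec, Bool.and_eq_true] at h
    obtain ⟨h2, h3⟩ := h
    obtain ⟨g1, g2⟩ := fm_spec K W e g k n _ _ _ _ _ h3
    have eB : ∀ i, (B >>> (K * W)) / 2 ^ (K * W * i) = B / 2 ^ (K * W * (i + 1)) := by
      intro i
      rw [Nat.shiftRight_eq_div_pow, Nat.div_div_eq_div_mul, ← pow_add]
      congr 2
      ring
    have eC : ∀ i, (C >>> K) / 2 ^ (K * i) = C / 2 ^ (K * (i + 1)) := by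
      intro i
      rw [Nat.shiftRight_eq_div_pow, Nat.div_div_eq_div_mul, ← pow_add]
      congr 2
      ring
    have eE : ∀ i, EI e (L >>> 20) i = EI e L (i + 1) := by
      intro i
      unfold EI
      rw [dL_shift]
    constructor
    · intro i hi
      rcases i with _ | i
      · rw [dL_zero]
        exact Nat.le_of_ble_eq_true h2
      · rw [← dL_shift]
        exact g1 i (by omega)
    · rw [Finset.sum_range_succ', Finset.sum_range_succ']
      simp only [eB, eC, eE] at g2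
      simp only [mul_zero, pow_zero, Nat.div_one]
      have e0 : EI e L 0 = 2 ^ e / (L % 1048576) + 1 := by unfold EI; rw [dL_zero]
      rw [e0]
      rw [add_comm (∑ i ∈ range n, _), add_comm (∑ i ∈ range n, _), ← add_assoc, ← add_assoc]
      exact g2

lemma mx_sum (K W n : ℕ) (m : ℕ) (f : ℕ → ℕ → ℕ → ℕ) :
    ∑ i ∈ range m, mx K W n (f i) = mx K W n (fun j k => ∑ i ∈ range m, f i j k) := by
  induction m with
  | zero => simp [mx, ev]
  | succ m ih =>
    rw [Finset.sum_range_succ, ih, mx_add]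
    apply mx_congr
    intro j _ k _
    show ∑ i ∈ range m, f i j k + f m j k = _
    rw [Finset.sum_range_succ]

/-- Numerical conditions on the parameters. -/
structure Ok2 (K W b c e g s0 : ℕ) : Prop where
  hs : b + 1 + s0 < K
  hWb : W ≤ 2 ^ b
  hgK : g + 1 < K
  h3 : W * ((2 ^ e + 1) * 2 ^ (2 * g)) ≤ 2 ^ c
  h4 : W * ((2 ^ e + 1) * 2 ^ (2 * g)) + 2 ^ e * 2 ^ 20 + 2 ^ s0 * 2 ^ b + 2 ^ c < 2 ^ K

lemma prod_bounds {G u v : ℕ} (hu : u ≤ 2 * G) (hv : v ≤ 2 * G) :
    u * v ≤ G * (v + u) ∧ G * (v + u) ≤ u * v + G * G + G * G := by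
  rcases le_total u G with h | h
  · obtain ⟨d, hd⟩ := Nat.exists_eq_add_of_le h
    constructor
    · calc u * v ≤ G * v := Nat.mul_le_mul_right _ h
        _ ≤ _ := Nat.mul_le_mul_left _ (by omega)
    · have h1 : G * v = u * v + d * v := by rw [hd]; ring
      have h2 : G * u + G * d = G * G := by rw [← mul_add, ← hd]
      have h3 : d * v ≤ d * (2 * G) := Nat.mul_le_mul_left _ hv
      have h4 : d ≤ G := by omega
      have h5 : d * G ≤ G * G := Nat.mul_le_mul_right _ h4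
      nlinarith
  · obtain ⟨d, hd⟩ := Nat.exists_eq_add_of_le h
    have hd2 : d ≤ G := by omega
    have h5 : d * G ≤ G * G := Nat.mul_le_mul_right _ hd2
    have h6 : d * v ≤ d * (2 * G) := Nat.mul_le_mul_left _ hv
    rw [hd]
    constructor
    · nlinarith
    · nlinarith [Nat.zero_le (d * v)]

/-- Soundness of the formation and the elimination. -/
theorem form_spec {K W b c t l e g s0 : ℕ} (ok : Ok K W b c t l) (hlt : l ≤ t)
    (ok2 : Ok2 K W b c e g s0) (hW : 1 ≤ W) (α : ℕ → ℕ → ℕ)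
    (hα : ∀ j < W, ∀ i < W, α j i ≤ 2 * 2 ^ g)
    (hanti : ∀ j < W, ∀ i < W, α j i + α i j = 2 * 2 ^ g) (L : ℕ)
    (h : fm K W e g (fun P Q => ren K W W W (b + 1) c s0 0
        ((P + 2 ^ e * dgL K W W L + (2 ^ s0 * BN K W W b + CJ K W W c)) - 2 ^ g * Q)
        (elim K W b c t l (W - 1))) W (mx K W W α) (mx K W W α) L 0 0 = true) :
    (∀ i < W, 1 ≤ dL L i) ∧ ∀ y : ℕ → ℝ,
      ∑ i ∈ range W, (EI e L i : ℝ) * (∑ j ∈ range W, ((α j i : ℝ) - 2 ^ g) * y j) ^ 2
        ≤ 2 ^ e * ∑ j ∈ range W, (dL L j : ℝ) * y j ^ 2 := by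
  obtain ⟨hD, h2⟩ := fm_spec K W e g _ W _ _ L 0 0 h
  refine ⟨hD, ?_⟩
  have hgK : (2 : ℕ) ^ (g + 2) ≤ 2 ^ K := Nat.pow_le_pow_right (by norm_num) (by
    have := ok2.hgK; omega)
  have hαK : ∀ j < W, ∀ i < W, α j i < 2 ^ K := by
    intro j hj i hi
    have h1 := hα j hj i hi
    have h3 : 0 < 2 ^ g := by positivity
    have e4 : (2 : ℕ) ^ (g + 2) = 4 * 2 ^ g := by rw [pow_add]; ring
    omega
  have hrow : ∀ i < W, mx K W W α / 2 ^ (K * W * i) % TW K W = ev K W (fun j => α j i) :=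
    fun i hi => ev_dg (K * W) W (fun k => ev K W (fun j => α j k)) (mx_rows le_rfl hαK) i hi
  have hcol : ∀ i < W, (mx K W W α / 2 ^ (K * i)) &&& CM K W W
      = ev (K * W) W (fun k => α i k) := by
    intro i hi
    rw [land_CM K W W _ (by omega)]
    apply ev_congr
    intro k hk
    rw [Nat.div_div_eq_div_mul, ← pow_add]
    have e : K * i + K * W * k = K * (i + W * k) := by ring
    rw [e]
    exact mx_dg le_rfl hαK hi hk
  set E := EI e L with hE
  have hP : 0 + ∑ i ∈ range W, E i * ((mx K W W α / 2 ^ (K * W * i) % TW K W)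
          * ((mx K W W α / 2 ^ (K * i)) &&& CM K W W) + CJ K W W (2 * g))
      = mx K W W (fun j k => ∑ i ∈ range W, E i * (α j i * α i k + 2 ^ (2 * g))) := by
    rw [zero_add, ← mx_sum]
    apply Finset.sum_congr rfl
    intro i hi
    have hi' := Finset.mem_range.mp hi
    rw [hrow i hi', hcol i hi', mx_outer, CJ_eq, mx_add, mx_mul]
  have hQ : 0 + ∑ i ∈ range W, E i * (J1 K W * ((mx K W W α / 2 ^ (K * i)) &&& CM K W W)
          + J2 K W W * (mx K W W α / 2 ^ (K * W * i) % TW K W))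
      = mx K W W (fun j k => ∑ i ∈ range W, E i * (α i k + α j i)) := by
    rw [zero_add, ← mx_sum]
    apply Finset.sum_congr rfl
    intro i hi
    have hi' := Finset.mem_range.mp hi
    rw [hrow i hi', hcol i hi', J1_eq, J2_eq, mx_outer, mul_comm (ev (K * W) W fun _ => 1),
      mx_outer, mx_add, mx_mul]
    simp only [one_mul, mul_one]
  rw [hP, hQ] at h2
  -- the fields
  set U : ℕ → ℕ → ℕ := fun j k => ∑ i ∈ range W, E i * (α j i * α i k + 2 ^ (2 * g))
    + 2 ^ e * (if j = k then dL L j else 0)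
    + (2 ^ s0 * (2 ^ b - W * (if j = k then 1 else 0)) + 2 ^ c) with hU
  set V : ℕ → ℕ → ℕ := fun j k => 2 ^ g * ∑ i ∈ range W, E i * (α i k + α j i) with hV
  have hBN : BN K W W b = mx K W W (fun j k => 2 ^ b - W * (if j = k then 1 else 0)) := by
    have e1 : BN K W W b = CJ K W W b - W * DG K W W := rfl
    rw [e1, CJ_eq, DG_eq, mx_mul, mx_sub]
    intro j _ k _
    show W * (if j = k then 1 else 0) ≤ 2 ^ b
    split_ifs
    · rw [mul_one]; exact ok2.hWb
    · rw [mul_zero]; exact Nat.zero_le _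
  have hE1 : ∀ i < W, E i ≤ 2 ^ e + 1 := by
    intro i _
    show 2 ^ e / dL L i + 1 ≤ 2 ^ e + 1
    have := Nat.div_le_self (2 ^ e) (dL L i)
    omega
  have h2g : (2 : ℕ) ^ (2 * g) = 2 ^ g * 2 ^ g := by rw [two_mul, pow_add]
  have hEs : ∑ i ∈ range W, E i * 2 ^ (2 * g) ≤ W * ((2 ^ e + 1) * 2 ^ (2 * g)) := by
    calc ∑ i ∈ range W, E i * 2 ^ (2 * g) ≤ ∑ i ∈ range W, (2 ^ e + 1) * 2 ^ (2 * g) :=
        Finset.sum_le_sum (fun i hi => Nat.mul_le_mul_right _ (hE1 i (Finset.mem_range.mp hi)))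
      _ = _ := by rw [Finset.sum_const, Finset.card_range, smul_eq_mul]
  have key : ∀ j < W, ∀ k < W, V j k ≤ U j k ∧ U j k < 2 ^ K + V j k := by
    intro j hj k hk
    have hb1 : ∑ i ∈ range W, E i * (α j i * α i k + 2 ^ (2 * g))
        ≤ 2 ^ g * ∑ i ∈ range W, E i * (α i k + α j i) + ∑ i ∈ range W, E i * 2 ^ (2 * g) := by
      rw [Finset.mul_sum, ← Finset.sum_add_distrib]
      apply Finset.sum_le_sum
      intro i hi
      have hi' := Finset.mem_range.mp hi
      have := (prod_bounds (hα j hj i hi') (hα i hi' k hk)).1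
      calc E i * (α j i * α i k + 2 ^ (2 * g))
          ≤ E i * (2 ^ g * (α i k + α j i) + 2 ^ (2 * g)) :=
            Nat.mul_le_mul_left _ (by omega)
        _ = _ := by ring
    have hb2 : 2 ^ g * ∑ i ∈ range W, E i * (α i k + α j i)
        ≤ ∑ i ∈ range W, E i * (α j i * α i k + 2 ^ (2 * g))
          + ∑ i ∈ range W, E i * 2 ^ (2 * g) := by
      rw [Finset.mul_sum, ← Finset.sum_add_distrib]
      apply Finset.sum_le_sum
      intro i hi
      have hi' := Finset.mem_range.mp hi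
      have := (prod_bounds (hα j hj i hi') (hα i hi' k hk)).2
      calc 2 ^ g * (E i * (α i k + α j i)) = E i * (2 ^ g * (α i k + α j i)) := by ring
        _ ≤ E i * (α j i * α i k + 2 ^ g * 2 ^ g + 2 ^ g * 2 ^ g) := Nat.mul_le_mul_left _ this
        _ = _ := by rw [h2g]; ring
    have hd : 2 ^ e * (if j = k then dL L j else 0) ≤ 2 ^ e * 2 ^ 20 := by
      apply Nat.mul_le_mul_left
      split_ifs
      · have : dL L j < 1048576 := Nat.mod_lt _ (by norm_num)
        have e20 : (2 : ℕ) ^ 20 = 1048576 := by norm_num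
        omega
      · exact Nat.zero_le _
    have hs : 2 ^ s0 * (2 ^ b - W * (if j = k then 1 else 0)) ≤ 2 ^ s0 * 2 ^ b :=
      Nat.mul_le_mul_left _ (Nat.sub_le _ _)
    have o3 := ok2.h3
    have o4 := ok2.h4
    simp only [hU, hV]
    generalize ∑ i ∈ range W, E i * (α j i * α i k + 2 ^ (2 * g)) = A1 at *
    generalize 2 ^ g * ∑ i ∈ range W, E i * (α i k + α j i) = A2 at *
    generalize ∑ i ∈ range W, E i * 2 ^ (2 * g) = A3 at *
    generalize W * ((2 ^ e + 1) * 2 ^ (2 * g)) = A4 at *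
    generalize 2 ^ e * (if j = k then dL L j else 0) = A5 at *
    generalize 2 ^ s0 * (2 ^ b - W * (if j = k then 1 else 0)) = A6 at *
    generalize 2 ^ s0 * 2 ^ b = A7 at *
    generalize 2 ^ e * 2 ^ 20 = A8 at *
    constructor
    · omega
    · omega
  have hZ : mx K W W (fun j k => ∑ i ∈ range W, E i * (α j i * α i k + 2 ^ (2 * g)))
      + 2 ^ e * dgL K W W L + (2 ^ s0 * BN K W W b + CJ K W W c)
      - 2 ^ g * mx K W W (fun j k => ∑ i ∈ range W, E i * (α i k + α j i))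
      = mx K W W (fun j k => U j k - V j k) := by
    rw [dgL_eq, hBN, CJ_eq, mx_mul, mx_mul, mx_mul, mx_add, mx_add, mx_add, mx_sub]
    intro j hj k hk
    exact (key j hj k hk).1
  have h2' : ren K W W W (b + 1) c s0 (K * (0 * (W + 1))) (mx K W W (fun j k => U j k - V j k))
      (elim K W b c t l (W - 1)) = true := by
    have e0 : K * (0 * (W + 1)) = 0 := by ring
    rw [e0, ← hZ]
    exact h2
  have hζ : ∀ j < W, ∀ k < W, (fun j k => U j k - V j k) j k < 2 ^ K := by
    intro j hj k hk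
    have := key j hj k hk
    show U j k - V j k < 2 ^ K
    omega
  obtain ⟨g1, g2⟩ := ren_spec (o := 0) (n := W) (n' := W) le_rfl (by omega) ok2.hs ok.hcK hζ h2'
  simp only [add_zero] at g2
  set x0 : ℕ → ℕ → ℕ := fun i j => (U i j - V i j) % 2 ^ (b + 1 + s0) / 2 ^ s0 with hx0
  -- real value of the fields
  have hval : ∀ j < W, ∀ k < W, ((U j k - V j k : ℕ) : ℝ)
      = 2 ^ c + 2 ^ s0 * (2 ^ b - (if j = k then (W : ℝ) else 0))
        + 2 ^ e * (if j = k then (dL L j : ℝ) else 0)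
        - ∑ i ∈ range W, (E i : ℝ) * (((α j i : ℝ) - 2 ^ g) * ((α k i : ℝ) - 2 ^ g)) := by
    intro j hj k hk
    have f1 := (key j hj k hk).1
    rw [Nat.cast_sub f1]
    simp only [hU, hV]
    have f2 : W * (if j = k then 1 else 0) ≤ 2 ^ b := by
      split_ifs
      · rw [mul_one]; exact ok2.hWb
      · rw [mul_zero]; exact Nat.zero_le _
    push_cast [Nat.cast_sub f2]
    have f3 : ∑ i ∈ range W, (E i : ℝ) * (((α j i : ℝ) - 2 ^ g) * ((α k i : ℝ) - 2 ^ g))
        = (2 : ℝ) ^ g * ∑ i ∈ range W, (E i : ℝ) * ((α i k : ℝ) + α j i)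
          - ∑ i ∈ range W, (E i : ℝ) * ((α j i : ℝ) * α i k + 2 ^ (2 * g)) := by
      rw [Finset.mul_sum, ← Finset.sum_sub_distrib]
      apply Finset.sum_congr rfl
      intro i hi
      have hi' := Finset.mem_range.mp hi
      have f4 : (α k i : ℝ) + α i k = 2 * 2 ^ g := by exact_mod_cast hanti k hk i hi'
      have f5 : (α k i : ℝ) = 2 * 2 ^ g - α i k := by linarith
      rw [f5, show (2 : ℝ) ^ (2 * g) = 2 ^ g * 2 ^ g by rw [two_mul, pow_add]]
      ring
    rw [f3]
    split_ifs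
    · ring
    · ring
  have hsymU : ∀ j < W, ∀ k < W, U j k - V j k = U k j - V k j := by
    intro j hj k hk
    have e1 : ((U j k - V j k : ℕ) : ℝ) = ((U k j - V k j : ℕ) : ℝ) := by
      rw [hval j hj k hk, hval k hk j hj]
      have e2 : ∑ i ∈ range W, (E i : ℝ) * (((α j i : ℝ) - 2 ^ g) * ((α k i : ℝ) - 2 ^ g))
          = ∑ i ∈ range W, (E i : ℝ) * (((α k i : ℝ) - 2 ^ g) * ((α j i : ℝ) - 2 ^ g)) :=
        Finset.sum_congr rfl (fun i _ => by ring)
      rw [e2]
      by_cases hjk : j = k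
      · subst hjk; rfl
      · rw [if_neg hjk, if_neg hjk, if_neg (Ne.symm hjk), if_neg (Ne.symm hjk)]
    exact_mod_cast e1
  obtain ⟨W', rfl⟩ : ∃ W', W = W' + 1 := ⟨W - 1, by omega⟩
  have hel := elim_spec ok hlt W' le_rfl x0 (by
      intro j _ k _
      simp only [hx0]
      rw [Nat.div_lt_iff_lt_mul (by positivity), ← pow_add]
      exact Nat.mod_lt _ (by positivity)) (by
      intro j hj k hk
      simp only [hx0]
      rw [hsymU j hj k hk]) g2
  intro y
  have hy := hel y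
  unfold Qf at hy
  have hs0 : (0 : ℝ) < 2 ^ s0 := by positivity
  set ρ : ℕ → ℕ → ℝ := fun j k => (((U j k - V j k : ℕ) : ℝ) - 2 ^ c) / 2 ^ s0 - x0 j k with hρ
  have hρb : ∀ j < W' + 1, ∀ k < W' + 1, |ρ j k| ≤ 1 := by
    intro j hj k hk
    have f1 := g1 j hj k hk
    have f3 := mod_div_bounds ((U j k - V j k) % 2 ^ (b + 1 + s0)) s0
    have f4 : (((U j k - V j k) % 2 ^ (b + 1 + s0) : ℕ) : ℝ)
        = ((U j k - V j k : ℕ) : ℝ) - 2 ^ c := by
      have e3 : ((U j k - V j k : ℕ) : ℝ)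
          = 2 ^ c + (((U j k - V j k) % 2 ^ (b + 1 + s0) : ℕ) : ℝ) := by
        exact_mod_cast f1
      linarith
    rw [f4] at f3
    obtain ⟨f5, f6⟩ := f3
    have f5' : (x0 j k : ℝ) ≤ (((U j k - V j k : ℕ) : ℝ) - 2 ^ c) / 2 ^ s0 := by
      rw [le_div_iff₀ hs0, mul_comm]
      exact f5
    have f6' : (((U j k - V j k : ℕ) : ℝ) - 2 ^ c) / 2 ^ s0 ≤ x0 j k + 1 := by
      rw [div_le_iff₀ hs0]
      calc _ ≤ _ := f6
        _ = (x0 j k + 1) * 2 ^ s0 := by simp only [hx0]; ring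
    rw [abs_le]
    simp only [hρ]
    constructor <;> linarith
  have hcs := sum_cs (W' + 1) ρ 1 hρb (by norm_num) y
  have hsplit : ∑ j ∈ range (W' + 1), ∑ k ∈ range (W' + 1), ρ j k * (y j * y k)
      = (2 ^ e * ∑ j ∈ range (W' + 1), (dL L j : ℝ) * y j ^ 2
          - ∑ i ∈ range (W' + 1), (E i : ℝ)
            * (∑ j ∈ range (W' + 1), ((α j i : ℝ) - 2 ^ g) * y j) ^ 2) / 2 ^ s0
        - ((W' + 1 : ℕ) : ℝ) * ∑ j ∈ range (W' + 1), y j ^ 2
        - ∑ j ∈ range (W' + 1), ∑ k ∈ range (W' + 1), ((x0 j k : ℝ) - 2 ^ b) * (y j * y k) := by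
    have hdiag : ∀ (d : ℕ → ℝ), ∑ j ∈ range (W' + 1), ∑ k ∈ range (W' + 1),
        (if j = k then d j else 0) * (y j * y k) = ∑ j ∈ range (W' + 1), d j * y j ^ 2 := by
      intro d
      apply Finset.sum_congr rfl
      intro j hj
      rw [Finset.sum_eq_single j]
      · rw [if_pos rfl]; ring
      · intro k _ hk
        rw [if_neg (Ne.symm hk), zero_mul]
      · intro h
        exact absurd hj h
    have hsq : ∑ j ∈ range (W' + 1), ∑ k ∈ range (W' + 1),
        (∑ i ∈ range (W' + 1), (E i : ℝ) * (((α j i : ℝ) - 2 ^ g) * ((α k i : ℝ) - 2 ^ g)))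
          * (y j * y k) = ∑ i ∈ range (W' + 1), (E i : ℝ)
            * (∑ j ∈ range (W' + 1), ((α j i : ℝ) - 2 ^ g) * y j) ^ 2 := by
      have e1 : ∀ i, (E i : ℝ) * (∑ j ∈ range (W' + 1), ((α j i : ℝ) - 2 ^ g) * y j) ^ 2
          = ∑ j ∈ range (W' + 1), ∑ k ∈ range (W' + 1),
            (E i : ℝ) * (((α j i : ℝ) - 2 ^ g) * ((α k i : ℝ) - 2 ^ g)) * (y j * y k) := by
        intro i
        rw [sq, Finset.sum_mul_sum, Finset.mul_sum]
        apply Finset.sum_congr rfl
        intro j _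
        rw [Finset.mul_sum]
        exact Finset.sum_congr rfl (fun k _ => by ring)
      simp only [e1]
      symm
      rw [Finset.sum_comm]
      apply Finset.sum_congr rfl
      intro j _
      rw [Finset.sum_comm]
      apply Finset.sum_congr rfl
      intro k _
      rw [Finset.sum_mul]
    have e2 : ∀ j ∈ range (W' + 1), ∀ k ∈ range (W' + 1), ρ j k * (y j * y k)
        = (2 ^ e * ((if j = k then (dL L j : ℝ) else 0) * (y j * y k))
          - (∑ i ∈ range (W' + 1), (E i : ℝ) * (((α j i : ℝ) - 2 ^ g) * ((α k i : ℝ) - 2 ^ g)))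
            * (y j * y k)) / 2 ^ s0
          - (if j = k then (((W' + 1 : ℕ) : ℝ)) else 0) * (y j * y k)
          - ((x0 j k : ℝ) - 2 ^ b) * (y j * y k) := by
      intro j hj k hk
      simp only [hρ]
      rw [hval j (Finset.mem_range.mp hj) k (Finset.mem_range.mp hk)]
      field_simp
      ring
    rw [Finset.sum_congr rfl (fun j hj => Finset.sum_congr rfl (fun k hk => e2 j hj k hk))]
    simp only [Finset.sum_sub_distrib, ← Finset.sum_div, ← Finset.mul_sum]
    rw [hdiag (fun j => (dL L j : ℝ)), hdiag (fun _ => ((W' + 1 : ℕ) : ℝ)), hsq,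
      ← Finset.mul_sum]
  rw [hsplit] at hcs
  have hfin : 0 ≤ (2 ^ e * ∑ j ∈ range (W' + 1), (dL L j : ℝ) * y j ^ 2
          - ∑ i ∈ range (W' + 1), (E i : ℝ)
            * (∑ j ∈ range (W' + 1), ((α j i : ℝ) - 2 ^ g) * y j) ^ 2) / 2 ^ s0 := by
    linarith
  have h9 := (le_div_iff₀ hs0).mp hfin
  rw [zero_mul] at h9
  linarith

end Pool.Agent.TH502.FA
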