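import Pool.Agent.TH502.FA.KernN

/-! # The check of a part of the enumeration -/

namespace Pool.Agent.TH502.FA

open Pool.Agent.W664.Fill

/-- The enumeration from a prefix succeeds. -/
noncomputable def segB (n2 M r k x : Nat) (d : D) : Bool :=
  O.rec (motive := fun _ => Bool) false (fun _ => true)
    (enumO n2 (Nat.pow 16 (Nat.sub n2 1)) M r k x d)

/-- The list contains all canonical configurations with the given prefix, and all its members
pass the check. -/
noncomputable def nodeB (tbl g K W b c t l e s0 s2 M r k x : Nat) (d : D) : Bool :=
  Bool.rec (motive := fun _ => Bool) false (segB W M r k x d)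
    (chkN tbl g K W b c t l e s0 s2 d)

/-- The table agrees with the tables of positive and negative parts. -/
noncomputable def tabB (P : Par) (tbl g N : Nat) : Bool :=
  Nat.rec (motive := fun _ => Bool) true (fun m ihm => Bool.rec (motive := fun _ => Bool) false
    (Nat.rec (motive := fun _ => Bool) true (fun k ihk => Bool.rec (motive := fun _ => Bool) false
      (Nat.rec (motive := fun _ => Bool) true (fun l ihl => Bool.rec (motive := fun _ => Bool) false
        (Nat.beq (Nat.add (tdg tbl g (Nat.mul (Nat.succ g)
            (Nat.add (Nat.add (Nat.mul 256 (Nat.succ m)) (Nat.mul 16 k)) l)))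
            (dig P P.tn (idx P (Nat.succ m) k l)))
          (Nat.add (Nat.pow 2 g) (dig P P.tp (idx P (Nat.succ m) k l))))
        ihl) (Nat.succ N)) ihk) (Nat.succ N)) ihm) (Nat.sub N 1)

end Pool.Agent.TH502.FA
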