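import Mathlib
import Pool.Agent.TH502.FA.Form
import Pool.Agent.TH502.FA.KernS

/-! # Coverage of all canonical configurations by parts of the enumeration -/

namespace Pool.Agent.TH502.FA

open Finset Pool.Agent.W664.Fill

/-- The conditions on a canonical configuration. -/
structure Cfg (N : ℕ) (a : ℕ → ℕ) : Prop where
  lo : ∀ i, N - a 0 ≤ a i
  hi : ∀ i, a i ≤ a 0
  adj : ∀ i, a i ≤ a (i + 1) + 1 ∧ a (i + 1) ≤ a i + 1
  l1 : N ≤ a (N - 1) + a 0 + 1
  l2 : a (N - 1) + a 0 ≤ N + 1
  can : canonB N (16 ^ (N - 1)) (pc a N) (2 * N) (pc a N) = true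

/-- All canonical configurations with first entry `M` whose prefix of length `N - r` has code `x`
and last entry `k` satisfy `Q` with some second argument. -/
def Good (Q : ℕ → ℕ → Prop) (N M r k x : ℕ) : Prop :=
  ∀ a : ℕ → ℕ, Cfg N a → a 0 = M → ∀ i, i + 1 + r = N → a i = k → pc a (i + 1) = x →
    ∃ L, Q (pc a N) L

lemma good_step {Q : ℕ → ℕ → Prop} {N M r k x : ℕ}
    (h1 : N - M + 1 ≤ k → Good Q N M r (k - 1) (16 * x + (k - 1)))
    (h2 : Good Q N M r k (16 * x + k))
    (h3 : k + 1 ≤ M → Good Q N M r (k + 1) (16 * x + (k + 1))) : Good Q N M (r + 1) k x := by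
  intro a ca hM i hi hk hx
  have hp : pc a (i + 1 + 1) = 16 * x + a (i + 1) := by
    show 16 * pc a (i + 1) + a (i + 1) = _
    rw [hx]
  obtain ⟨ha1, ha2⟩ := ca.adj i
  have hlo := ca.lo (i + 1)
  have hhi := ca.hi (i + 1)
  rw [hM] at hlo hhi
  have hcases : a (i + 1) = k - 1 ∧ 1 ≤ k ∨ a (i + 1) = k ∨ a (i + 1) = k + 1 := by omega
  rcases hcases with ⟨hc, hc1⟩ | hc | hc
  · exact h1 (by omega) a ca hM (i + 1) (by omega) hc (by rw [hp, hc])
  · exact h2 a ca hM (i + 1) (by omega) hc (by rw [hp, hc])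
  · exact h3 (by omega) a ca hM (i + 1) (by omega) hc (by rw [hp, hc])

lemma good_far {Q : ℕ → ℕ → Prop} {N M r k x : ℕ} (h : N + 1 + r < k + M) :
    Good Q N M r k x := by
  intro a ca hM i hi hk hx
  exfalso
  have key : ∀ j, a i ≤ a (i + j) + j := by
    intro j
    induction j with
    | zero => simp
    | succ j ih =>
      have := (ca.adj (i + j)).1
      show a i ≤ a (i + j + 1) + (j + 1)
      omega
  have h1 := key r
  have e : i + r = N - 1 := by omega
  rw [e, hk] at h1
  have h2 := ca.l2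
  rw [hM] at h2
  omega

lemma good_node {tbl g K W b c t l e s0 s2 M r k x : ℕ} {d : D}
    (h : nodeB tbl g K W b c t l e s0 s2 M r k x d = true) :
    Good (fun y L => leafN tbl g K W b c t l e s0 s2 y L = true) W M r k x := by
  intro a ca hM i hi hk hx
  have h1 : nodeB tbl g K W b c t l e s0 s2 M r k x d
    = Bool.rec (motive := fun _ => Bool) false (segB W M r k x d)
      (chkN tbl g K W b c t l e s0 s2 d) := rfl
  rw [h1, brec, Bool.and_eq_true] at h
  obtain ⟨h2, h3⟩ := h
  have hchk : ∀ (d : D), chkN tbl g K W b c t l e s0 s2 d = true →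
      ∀ x L, Dmem x L d → leafN tbl g K W b c t l e s0 s2 x L = true := by
    intro d
    induction d with
    | nil => intro _ x L h; exact h.elim
    | cons y K' t' ih =>
      intro h x L hm
      have e1 : chkN tbl g K W b c t l e s0 s2 (D.cons y K' t')
        = Bool.rec (motive := fun _ => Bool) false (chkN tbl g K W b c t l e s0 s2 t')
          (leafN tbl g K W b c t l e s0 s2 y K') := rfl
      rw [e1, brec, Bool.and_eq_true] at h
      rcases hm with ⟨rfl, rfl⟩ | hm
      · exact h.1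
      · exact ih h.2 x L hm
  have h4 : segB W M r k x d = O.rec (motive := fun _ => Bool) false (fun _ => true)
    (enumO W (16 ^ (W - 1)) M r k x d) := rfl
  rw [h4] at h3
  obtain ⟨e', he⟩ : ∃ e', enumO W (16 ^ (W - 1)) M r k x d = O.some e' := by
    cases h : enumO W (16 ^ (W - 1)) M r k x d with
    | none => rw [h] at h3; exact absurd h3 Bool.false_ne_true
    | some e' => exact ⟨e', rfl⟩
  subst hk
  subst hx
  have hlo : ∀ j, W - M ≤ a j := fun j => by rw [← hM]; exact ca.lo j
  have hhi : ∀ j, a j ≤ M := fun j => by rw [← hM]; exact ca.hi j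
  have hl1 := ca.l1
  have hl2 := ca.l2
  rw [hM] at hl1 hl2
  obtain ⟨L, hL⟩ := enumO_found W (16 ^ (W - 1)) M a W hlo hhi ca.adj hl1 hl2 ca.can r i d e'
    hi he
  exact ⟨L, hchk d h2 _ _ hL⟩

/-- The finite inequality from the coverage of the canonical configurations. -/
theorem finite_bound' (Q : ℕ → ℕ → Prop) (P : Par) (N : ℕ) (hN1 : 1 ≤ N) (hN16 : N < 16)
    (hN : P.n2 = N) (s2 : ℕ)
    (hleaf : ∀ (a : ℕ → ℕ) (L : ℕ), (∀ i, a i ≤ N) → Q (pc a N) L → ∀ (X Y : ℕ → ℝ) (B : ℝ),
      (∀ i, X i ^ 2 + Y i ^ 2 ≤ B) → 2 * Fsum P a X Y N ≤ B * s2)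
    (hgood : ∀ M, N ≤ 2 * M → M ≤ N → Good Q N M (N - 1) M M)
    (hsym : symB P N = true) (a : ℕ → ℕ) (ha : ∀ i, a (i + N) + a i = N)
    (hadj : ∀ i, a i ≤ a (i + 1) + 1 ∧ a (i + 1) ≤ a i + 1) (X Y : ℕ → ℝ)
    (hX : ∀ i, X (i + N) = -X i) (hY : ∀ i, Y (i + N) = -Y i) (B : ℝ)
    (hB : ∀ i, X i ^ 2 + Y i ^ 2 ≤ B) : 2 * Fsum P a X Y N ≤ B * s2 := by
  have ha16 : ∀ i, a i < 16 := fun i => by have := ha i; omega
  have hper2 : ∀ i, a (i + 2 * N) = a i := by
    intro i
    have h1 := ha i
    have h2 := ha (i + N)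
    have e : i + N + N = i + 2 * N := by omega
    rw [e] at h2
    omega
  -- choose the window of largest code
  obtain ⟨m, hm, hmax⟩ := Finset.exists_max_image (range (2 * N))
    (fun s => pc (fun i => a (s + i)) N) ⟨0, Finset.mem_range.mpr (by omega)⟩
  have hmod : ∀ s t, a (s + t) = a (s % (2 * N) + t) := by
    intro s t
    have key : ∀ q r, a (r + 2 * N * q + t) = a (r + t) := by
      intro q
      induction q with
      | zero => intro r; simp
      | succ q ih =>
        intro r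
        have e : r + 2 * N * (q + 1) + t = (r + 2 * N * q + t) + 2 * N := by ring
        rw [e, hper2, ih]
    conv_lhs => rw [← Nat.mod_add_div s (2 * N)]
    exact key _ _
  have hmax' : ∀ s, pc (fun i => a (s + i)) N ≤ pc (fun i => a (m + i)) N := by
    intro s
    have h1 : (fun i => a (s + i)) = (fun i => a (s % (2 * N) + i)) := by
      funext i; exact hmod s i
    rw [h1]
    exact hmax _ (Finset.mem_range.mpr (Nat.mod_lt _ (by omega)))
  set b : ℕ → ℕ := fun i => a (m + i) with hb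
  have hbper : ∀ i, b (i + N) + b i = N := by
    intro i
    simp only [hb]
    rw [← add_assoc]
    exact ha _
  have hbadj : ∀ i, b i ≤ b (i + 1) + 1 ∧ b (i + 1) ≤ b i + 1 := by
    intro i
    simp only [hb]
    rw [← add_assoc]
    exact hadj _
  have hb16 : ∀ i, b i < 16 := fun i => ha16 _
  have hbmax : ∀ s, pc (fun i => b (s + i)) N ≤ pc b N := by
    intro s
    have : (fun i => b (s + i)) = (fun i => a (m + s + i)) := by
      funext i; simp only [hb]; congr 1; omega
    rw [this]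
    exact hmax' _
  have hhi : ∀ i, b i ≤ b 0 := by
    intro i
    by_contra hlt
    push Not at hlt
    obtain ⟨n, rfl⟩ : ∃ n, N = n + 1 := ⟨N - 1, by omega⟩
    have h1 := hbmax i
    rw [pc_left, pc_left] at h1
    simp only [Nat.add_zero] at h1
    have h2 := pc_lt n (fun i => b (i + 1)) (fun i => hb16 _)
    have h3 : (b 0 + 1) * 16 ^ n ≤ b i * 16 ^ n := Nat.mul_le_mul_right _ hlt
    rw [add_mul, one_mul] at h3
    omega
  have hlo : ∀ i, N - b 0 ≤ b i := by
    intro i
    have h1 := hbper i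
    have h2 := hhi (i + N)
    omega
  have h2 : N ≤ 2 * b 0 := by
    have h1 := hbper 0
    have h2 := hhi (0 + N)
    omega
  have hlast := hbadj (N - 1)
  have e1 : N - 1 + 1 = N := by omega
  rw [e1] at hlast
  have hN0 := hbper 0
  rw [Nat.zero_add] at hN0
  have hcan : canonB N (16 ^ (N - 1)) (pc b N) (2 * N) (pc b N) = true := by
    have := canonB_of N N hN1 b hb16 hbper (pc b N) hbmax (2 * N) 0
    simpa using this
  have hcfg : Cfg N b := ⟨hlo, hhi, hbadj, by omega, by omega, hcan⟩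
  have hbN : ∀ i, b i ≤ N := fun i => by have := hbper i; omega
  obtain ⟨L, hL⟩ := hgood (b 0) h2 (hbN 0) b hcfg rfl 0 (by omega) rfl (by simp [pc])
  have hres := hleaf b L hbN hL (fun i => X (m + i)) (fun i => Y (m + i)) B (fun i => hB _)
  rw [hb, Fsum_shift P N hN1 hN hsym a ha X Y hX hY m] at hres
  exact hres

end Pool.Agent.TH502.FA
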