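import Mathlib
import Pool.Agent.W664.Fill.Final
import Pool.Agent.TH502.FA.Good

/-! # The lattice calibration, from the finite inequality

The proof of the first theorem follows the one of `Pool.Agent.W664.Fill.area_ge_lattice`, with the
finite inequality as a hypothesis. -/

open Finset Real MeasureTheory Filter Topology Set

namespace Pool.Agent.TH502.FA

open Pool.Agent.W664.Fill Pool.Agent.H115R3.Filling

section

variable {M : Type} [MetricSpace M] (S : OrientedSurface M)

/-- The area bound from the finite inequality. -/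
theorem area_ge_lattice' (hS : S.NoShortcut) (P : Par) (N n : ℕ) (hNn : N = 2 * n) (hn : 1 ≤ n)
    (s2 : ℕ) (hs2 : 0 < s2)
    (hfb : ∀ (a : ℕ → ℕ), (∀ i, a (i + N) + a i = N) →
      (∀ i, a i ≤ a (i + 1) + 1 ∧ a (i + 1) ≤ a i + 1) → ∀ (X Y : ℕ → ℝ),
      (∀ i, X (i + N) = -X i) → (∀ i, Y (i + N) = -Y i) → ∀ (B : ℝ),
      (∀ i, X i ^ 2 + Y i ^ 2 ≤ B) → 2 * Fsum P a X Y N ≤ B * s2) :
    (π / (2 * N)) ^ 2 / s2 * ∑ i ∈ range N, ∑ j ∈ range i, ∑ k ∈ range (N + 1),
      ∑ l ∈ range (N + 1), cv P (i - j) k l *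
        (∑ q ∈ range (4 * N), ((cl l (uu N j q) * cl k (uu N i (q + 1)) : ℕ) : ℝ)
        - ∑ q ∈ range (4 * N), ((cl l (uu N j (q + 1)) * cl k (uu N i q) : ℕ) : ℝ))
      ≤ S.area := by
  have hN : 0 < N := by omega
  have hNr : (0 : ℝ) < N := by exact_mod_cast hN
  have hs2r : (0 : ℝ) < s2 := by exact_mod_cast hs2
  set h : ℝ := π / N with hh
  have hh0 : 0 < h := by positivity
  have hπh : π = 2 * n * h := by
    rw [hh, hNn]; push_cast
    have : (n : ℝ) ≠ 0 := by
      have : n ≠ 0 := by omega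
      exact_mod_cast this
    field_simp
  set G : ℕ → M → ℝ := GG S.boundary N with hG
  set UU : ℕ → ℕ → M → ℝ := fun i k x => clp h k (G i x) with hUU
  have hUUl : ∀ i k x y, |UU i k x - UU i k y| ≤ dist x y := fun i k x y =>
    (clp_lip h k _ _).trans (GG_lip _ _ _ _ _)
  refine area_ge_of_cal S (PI N)
    (fun p => if p.2.1 < p.1 then 2 * cv P (p.1 - p.2.1) p.2.2.1 p.2.2.2 / s2 else 0)
    (fun p => UU p.2.1 p.2.2.2) (fun p => UU p.1 p.2.2.1)
    (fun p => hUUl _ _) (fun p => hUUl _ _) ?_ _ ?_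
  · intro c
    have hseg : ∀ (V : M → ℝ), (∀ x y, |V x - V y| ≤ dist x y) →
        SegLip (S.metric c) (fun p => V (S.chart c p)) := by
      intro V hV p hp q hq
      refine (hV _ _).trans ?_
      rw [dist_comm]
      exact S.dist_le c p hp q hq
    have hd1 : ∀ᵐ x ∂(volume.restrict Sqo), ∀ i : ℕ,
        DifferentiableAt ℝ (fun p => G i (S.chart c p)) x := by
      rw [ae_all_iff]
      intro i
      exact (hseg _ (GG_lip _ _ _)).ae_diff
    have hd2 : ∀ᵐ x ∂(volume.restrict Sqo), ∀ i k : ℕ,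
        DifferentiableAt ℝ (fun p => UU i k (S.chart c p)) x := by
      rw [ae_all_iff]
      intro i
      rw [ae_all_iff]
      intro k
      exact (hseg _ (hUUl i k)).ae_diff
    filter_upwards [hd1, hd2, self_mem_ae_restrict isOpen_Sqo.measurableSet] with x hx1 hx2 hxo
    have hxS : x ∈ Sq := Sqo_sub hxo
    set E := (S.metric c).E x with hE
    set F := (S.metric c).F x with hF
    set Gm := (S.metric c).G x with hGm
    have hEpos : 0 < E := (S.metric c).pos_E x hxS
    have hDet : 0 < E * Gm - F ^ 2 := (S.metric c).pos_det x hxS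
    set Dt := √(E * Gm - F ^ 2) with hDt
    have hDtpos : 0 < Dt := Real.sqrt_pos.mpr hDet
    set f : ℕ → ℝ × ℝ → ℝ := fun i p => G i (S.chart c p) with hf
    set a : ℕ → ℕ := fun i => rnd n (f i x / h) with ha
    set A1 : ℕ → ℝ := fun i => fderiv ℝ (f i) x (1, 0) with hA1
    set A2 : ℕ → ℝ := fun i => fderiv ℝ (f i) x (0, 1) with hA2
    have hf0 : ∀ i, 0 ≤ f i x := fun i => (GG_range _ _ _ _).1
    have hf1 : ∀ i, f i x ≤ 2 * n * h := fun i => by
      rw [← hπh]; exact (GG_range _ _ _ _).2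
    have hfN : ∀ i, f (i + N) = fun p => π - f i p := by
      intro i
      funext p
      exact GG_anti _ hN _ _
    -- periodicity of the rounding
    have haper : ∀ i, a (i + N) + a i = N := by
      intro i
      simp only [ha]
      have e1 : f (i + N) x / h = 2 * n - f i x / h := by
        rw [hfN]
        simp only
        rw [sub_div, hπh]
        field_simp
      rw [e1, rnd_compl n (div_nonneg (hf0 i) hh0.le) (by
        rw [div_le_iff₀ hh0]; exact hf1 i), hNn]
    have haadj : ∀ i, a i ≤ a (i + 1) + 1 ∧ a (i + 1) ≤ a i + 1 := by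
      intro i
      have e0 : |f (i + 1) x - f i x| ≤ h := GG_adj _ _ _ _
      have e1 : |f (i + 1) x / h - f i x / h| ≤ 1 := by
        rw [← sub_div, abs_div, abs_of_pos hh0, div_le_one hh0]
        exact e0
      have e2 : |f i x / h - f (i + 1) x / h| ≤ 1 := by rw [abs_sub_comm]; exact e1
      exact ⟨rnd_adj n e2 (div_nonneg (hf0 _) hh0.le), rnd_adj n e1 (div_nonneg (hf0 _) hh0.le)⟩
    -- the covectors
    have hXper : ∀ i, Dt * A1 (i + N) = -(Dt * A1 i) := by
      intro i
      simp only [hA1]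
      rw [hfN, fderiv_const_sub]
      simp
    have hYper : ∀ i, F * A1 (i + N) - E * A2 (i + N) = -(F * A1 i - E * A2 i) := by
      intro i
      simp only [hA1, hA2]
      rw [hfN, fderiv_const_sub]
      simp only [_root_.neg_apply]
      ring
    have hnorm : ∀ i, (Dt * A1 i) ^ 2 + (F * A1 i - E * A2 i) ^ 2 ≤ E * Dt ^ 2 := by
      intro i
      apply dual_bound hEpos hDet
      intro v w
      have h2 := (hseg _ (GG_lip S.boundary N i)).deriv_le hxo (hx1 i) (v, w)
      have h3 : fderiv ℝ (fun p => G i (S.chart c p)) x (v, w)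
          = A1 i * v + A2 i * w := by
        have : ((v, w) : ℝ × ℝ) = v • (1, 0) + w • (0, 1) := by simp
        rw [this, map_add, map_smul, map_smul, smul_eq_mul, smul_eq_mul]
        simp only [hA1, hA2, hf]
        ring
      rw [← h3]
      exact h2
    have hfin := hfb a haper haadj
      (fun i => Dt * A1 i) (fun i => F * A1 i - E * A2 i) hXper hYper (E * Dt ^ 2) hnorm
    -- the Jacobians
    have hjac : ∀ i j k l, k ≤ N → l ≤ N →
        jac (fun p => UU j l (S.chart c p)) (fun p => UU i k (S.chart c p)) x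
        = if k = a i then (if l = a j then A1 j * A2 i - A2 j * A1 i else 0) else 0 := by
      intro i j k l hk hl
      have e1 := fderiv_clp hh0 n (f i) x (hf0 i) (hf1 i) (hx1 i)
        (fun k _ => hx2 i k) k (by omega)
      have e2 := fderiv_clp hh0 n (f j) x (hf0 j) (hf1 j) (hx1 j)
        (fun k _ => hx2 j k) l (by omega)
      have e1' : fderiv ℝ (fun p => UU i k (S.chart c p)) x
          = if k = a i then fderiv ℝ (f i) x else 0 := e1
      have e2' : fderiv ℝ (fun p => UU j l (S.chart c p)) x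
          = if l = a j then fderiv ℝ (f j) x else 0 := e2
      unfold jac
      rw [e1', e2']
      split_ifs <;> simp [hA1, hA2]
    have hsum : ∑ p ∈ PI N, (if p.2.1 < p.1 then 2 * cv P (p.1 - p.2.1) p.2.2.1 p.2.2.2 / s2
          else 0) * jac (fun y => UU p.2.1 p.2.2.2 (S.chart c y))
            (fun y => UU p.1 p.2.2.1 (S.chart c y)) x
        = ∑ i ∈ range N, ∑ j ∈ range i, 2 * cv P (i - j) (a i) (a j) / s2
            * (A1 j * A2 i - A2 j * A1 i) := by
      have g1 : ∀ p ∈ PI N, (if p.2.1 < p.1 then 2 * cv P (p.1 - p.2.1) p.2.2.1 p.2.2.2 / s2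
          else 0) * jac (fun y => UU p.2.1 p.2.2.2 (S.chart c y))
            (fun y => UU p.1 p.2.2.1 (S.chart c y)) x
          = (if p.2.1 < p.1 then 2 * cv P (p.1 - p.2.1) p.2.2.1 p.2.2.2 / s2 *
            (if p.2.2.1 = a p.1 then (if p.2.2.2 = a p.2.1 then
              A1 p.2.1 * A2 p.1 - A2 p.2.1 * A1 p.1 else 0) else 0) else 0) := by
        intro p hp
        unfold PI at hp
        simp only [Finset.mem_product, Finset.mem_range] at hp
        rw [hjac p.1 p.2.1 p.2.2.1 p.2.2.2 (by omega) (by omega)]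
        split_ifs <;> simp
      rw [Finset.sum_congr rfl g1, sum_PI N (fun i j k l => 2 * cv P (i - j) k l / s2 *
            (if k = a i then (if l = a j then A1 j * A2 i - A2 j * A1 i else 0) else 0))]
      apply Finset.sum_congr rfl
      intro i _
      apply Finset.sum_congr rfl
      intro j _
      have hai : a i ∈ range (N + 1) := by
        have := haper i
        exact Finset.mem_range.mpr (by omega)
      have haj : a j ∈ range (N + 1) := by
        have := haper j
        exact Finset.mem_range.mpr (by omega)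
      rw [Finset.sum_eq_single_of_mem (a i) hai, Finset.sum_eq_single_of_mem (a j) haj]
      · simp
      · intro l _ hl
        simp [hl]
      · intro k _ hk
        simp [hk]
    rw [hsum]
    have hmul : 2 * Fsum P a (fun i => Dt * A1 i) (fun i => F * A1 i - E * A2 i) N
        = (Dt * E * s2) * ∑ i ∈ range N, ∑ j ∈ range i, 2 * cv P (i - j) (a i) (a j) / s2
            * (A1 j * A2 i - A2 j * A1 i) := by
      unfold Fsum
      rw [Finset.mul_sum, Finset.mul_sum]
      apply Finset.sum_congr rfl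
      intro i _
      rw [Finset.mul_sum, Finset.mul_sum]
      apply Finset.sum_congr rfl
      intro j _
      field_simp
      ring
    rw [hmul] at hfin
    have hpos : 0 < Dt * E * s2 := by positivity
    have e4 : E * Dt ^ 2 * s2 = (Dt * E * s2) * Dt := by ring
    rw [e4] at hfin
    exact le_of_mul_le_mul_left hfin hpos
  · -- the boundary
    have hb : ∀ i k (t : ℝ), UU i k (S.boundary (t : AddCircle (2 * π)))
        = clp (π / N) k (rho ((i : ℝ) * (π / N) - t)) := by
      intro i k t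
      simp only [hUU, hG]
      rw [GG_bdry hS]
    have hlim : ∀ p ∈ PI N, Tendsto (fun m : ℕ =>
        (if p.2.1 < p.1 then 2 * cv P (p.1 - p.2.1) p.2.2.1 p.2.2.2 / s2 else 0) *
        (loopSum S.brk (fun t => UU p.2.1 p.2.2.2 (S.boundary (t : AddCircle (2 * π))))
          (fun t => UU p.1 p.2.2.1 (S.boundary (t : AddCircle (2 * π)))) m / 2)) atTop
        (𝓝 ((if p.2.1 < p.1 then 2 * cv P (p.1 - p.2.1) p.2.2.1 p.2.2.2 / s2 else 0) *
          (pp (fun t => clp (π / N) p.2.2.2 (rho ((p.2.1 : ℝ) * (π / N) - t)))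
            (fun t => clp (π / N) p.2.2.1 (rho ((p.1 : ℝ) * (π / N) - t)))
            (π / (2 * N)) (4 * N) / 2))) := by
      intro p _
      apply Tendsto.const_mul
      apply Tendsto.div_const
      simp only [hb]
      apply tendsto_loopSum S.brk S.brk_strictMono S.brk_zero (by positivity) (4 * N) (by
        rw [S.brk_last]; push_cast; field_simp; ring) (pwAff_clp hN _ _) (pwAff_clp hN _ _)
        (zero_le_one) (clp_rho_lip N _ _) (clp_rho_lip N _ _)
    have hlim2 := tendsto_finsetSum (PI N) hlim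
    convert hlim2 using 2
    have g1 : ∀ p ∈ PI N, (if p.2.1 < p.1 then 2 * cv P (p.1 - p.2.1) p.2.2.1 p.2.2.2 / s2
          else 0) * (pp (fun t => clp (π / N) p.2.2.2 (rho ((p.2.1 : ℝ) * (π / N) - t)))
            (fun t => clp (π / N) p.2.2.1 (rho ((p.1 : ℝ) * (π / N) - t)))
            (π / (2 * N)) (4 * N) / 2)
        = (if p.2.1 < p.1 then (π / (2 * N)) ^ 2 / s2 * (cv P (p.1 - p.2.1) p.2.2.1 p.2.2.2 *
          (∑ q ∈ range (4 * N), ((cl p.2.2.2 (uu N p.2.1 q) *
              cl p.2.2.1 (uu N p.1 (q + 1)) : ℕ) : ℝ)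
          - ∑ q ∈ range (4 * N), ((cl p.2.2.2 (uu N p.2.1 (q + 1)) *
              cl p.2.2.1 (uu N p.1 q) : ℕ) : ℝ))) else 0) := by
      intro p _
      rw [pp_clp hN]
      split_ifs
      · ring
      · ring
    rw [Finset.sum_congr rfl g1, sum_PI N (fun i j k l => (π / (2 * N)) ^ 2 / s2 *
      (cv P (i - j) k l *
        (∑ q ∈ range (4 * N), ((cl l (uu N j q) * cl k (uu N i (q + 1)) : ℕ) : ℝ)
        - ∑ q ∈ range (4 * N), ((cl l (uu N j (q + 1)) * cl k (uu N i q) : ℕ) : ℝ))))]
    rw [Finset.mul_sum]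
    apply Finset.sum_congr rfl
    intro i _
    rw [Finset.mul_sum]
    apply Finset.sum_congr rfl
    intro j _
    rw [Finset.mul_sum]
    apply Finset.sum_congr rfl
    intro k _
    rw [Finset.mul_sum]

end

/-- The area bound from the finite inequality and the flux. -/
theorem area_ge_cert' {M : Type} [MetricSpace M] (S : OrientedSurface M) (hS : S.NoShortcut)
    (P : Par) (N n : ℕ) (hNn : N = 2 * n) (hn : 1 ≤ n) (s2 : ℕ) (hs2 : 0 < s2)
    (hfb : ∀ (a : ℕ → ℕ), (∀ i, a (i + N) + a i = N) →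
      (∀ i, a i ≤ a (i + 1) + 1 ∧ a (i + 1) ≤ a i + 1) → ∀ (X Y : ℕ → ℝ),
      (∀ i, X (i + N) = -X i) → (∀ i, Y (i + N) = -Y i) → ∀ (B : ℝ),
      (∀ i, X i ^ 2 + Y i ^ 2 ≤ B) → 2 * Fsum P a X Y N ≤ B * s2)
    (v : ℕ) (hv : fluxB P N v = true) :
    (v : ℝ) / (4 * N ^ 2 * s2) * π ^ 2 ≤ S.area := by
  refine le_trans ?_ (area_ge_lattice' S hS P N n hNn hn s2 hs2 hfb)
  have hN : 0 < N := by omega
  have hNr : (0 : ℝ) < N := by exact_mod_cast hN
  have hs2r : (0 : ℝ) < s2 := by exact_mod_cast hs2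
  have h1 := flux_eq P N v hv
  have h2 : (v : ℝ) / (4 * N ^ 2 * s2) * π ^ 2 = (π / (2 * N)) ^ 2 / s2 * v := by
    field_simp
    ring
  rw [h2]
  exact mul_le_mul_of_nonneg_left h1 (by positivity)

end Pool.Agent.TH502.FA
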