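import Mathlib
import Pool.Agent.TH502.FA.Good

/-! # Soundness of the check at one configuration -/

namespace Pool.Agent.TH502.FA

open Finset Pool.Agent.W664.Fill

lemma tdg_lt (tbl g q : ℕ) : tdg tbl g q < 2 ^ (g + 1) :=
  Nat.mod_lt _ (show 0 < 2 ^ (g + 1) by positivity)

lemma frc_eq {α : Type} (f : ℕ → α) (x : ℕ) : frc f x = f x := by cases x <;> rfl

/-- Digit of a code. -/
def dx (x i : ℕ) : ℕ := x / 16 ^ i % 16

lemma dx_div (x i : ℕ) : dx (x / 16) i = dx x (i + 1) := by
  unfold dx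
  rw [Nat.div_div_eq_div_mul, pow_succ, mul_comm 16]

lemma dx_zero (x : ℕ) : dx x 0 = x % 16 := by unfold dx; simp

lemma rwP_eq (tbl g κ : ℕ) : ∀ (n q y : ℕ), rwP tbl g (2 ^ κ) n q y
    = ev κ n (fun t => tdg tbl g (q + t * (256 * (g + 1)) + (g + 1) * dx y t))
  | 0, q, y => by rw [ev_zero]; rfl
  | n + 1, q, y => by
    have h : rwP tbl g (2 ^ κ) (n + 1) q y = tdg tbl g (q + (g + 1) * (y % 16))
      + 2 ^ κ * frc (rwP tbl g (2 ^ κ) n (q + 256 * (g + 1))) (y / 16) := rfl
    rw [h, frc_eq, rwP_eq tbl g κ n, ev_succ, dx_zero, zero_mul, add_zero]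
    congr 2
    apply ev_congr
    intro t _
    rw [dx_div]
    congr 1
    ring

lemma rwN_eq (tbl g κ : ℕ) : ∀ (n q y : ℕ), rwN tbl g (2 ^ κ) n q y
    = ev κ n (fun t => 2 ^ (g + 1) - tdg tbl g (q + t * (256 * (g + 1)) + (g + 1) * dx y t))
  | 0, q, y => by rw [ev_zero]; rfl
  | n + 1, q, y => by
    have h : rwN tbl g (2 ^ κ) (n + 1) q y = (2 ^ (g + 1) - tdg tbl g (q + (g + 1) * (y % 16)))
      + 2 ^ κ * frc (rwN tbl g (2 ^ κ) n (q + 256 * (g + 1))) (y / 16) := rfl
    rw [h, frc_eq, rwN_eq tbl g κ n, ev_succ, dx_zero, zero_mul, add_zero]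
    congr 2
    apply ev_congr
    intro t _
    rw [dx_div]
    congr 2
    ring

/-- The entries of the packed antisymmetric matrix. -/
noncomputable def al (tbl g x : ℕ) (j i : ℕ) : ℕ :=
  if i < j then tdg tbl g ((g + 1) * (256 * (j - i) + 16 * dx x i + dx x j))
  else if j < i then
    2 ^ (g + 1) - tdg tbl g ((g + 1) * (256 * (i - j) + 16 * dx x j + dx x i))
  else 2 ^ g

lemma fA_eq (tbl g K W : ℕ) : ∀ (n x : ℕ), fA tbl g K W n x = mx K W n (al tbl g x)
  | 0, x => by simp [fA, mx, ev]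
  | n + 1, x => by
    have h : fA tbl g K W (n + 1) x = frc (fun k => frc (fun y =>
      (2 ^ g + 2 ^ K * rwP tbl g (2 ^ K) n ((g + 1) * (256 + 16 * k)) y)
        + (2 ^ (K * W) * rwN tbl g (2 ^ (K * W)) n ((g + 1) * (256 + 16 * k)) y
          + 2 ^ (K * (W + 1)) * fA tbl g K W n y)) (x / 16)) (x % 16) := rfl
    have r0 : al tbl g x 0 0 = 2 ^ g := by simp [al]
    have r1 : ev K n (fun t => tdg tbl g ((g + 1) * (256 + 16 * (x % 16)) + t * (256 * (g + 1))
        + (g + 1) * dx (x / 16) t)) = ev K n (fun t => al tbl g x (t + 1) 0) := by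
      apply ev_congr
      intro t _
      unfold al
      rw [if_pos (by omega), dx_zero, dx_div]
      congr 1
      rw [Nat.sub_zero]
      ring
    have r2 : ev (K * W) n (fun t => 2 ^ (g + 1) - tdg tbl g ((g + 1) * (256 + 16 * (x % 16))
        + t * (256 * (g + 1)) + (g + 1) * dx (x / 16) t))
        = ev (K * W) n (fun t => al tbl g x 0 (t + 1)) := by
      apply ev_congr
      intro t _
      unfold al
      rw [if_neg (by omega), if_pos (by omega), dx_zero, dx_div]
      congr 2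
      rw [Nat.sub_zero]
      ring
    have r3 : mx K W n (al tbl g (x / 16)) = mx K W n (fun j k => al tbl g x (j + 1) (k + 1)) := by
      apply mx_congr
      intro j _ k _
      unfold al
      simp only [dx_div, Nat.add_lt_add_iff_right, Nat.add_sub_add_right]
    rw [h, frc_eq, frc_eq, fA_eq tbl g K W n, rwP_eq, rwN_eq, mx_succ, r0, r1, r2, r3]

lemma dx_pc (a : ℕ → ℕ) (ha : ∀ i, a i < 16) : ∀ (n i : ℕ), i < n →
    dx (pc a n) i = a (n - 1 - i)
  | 0, i, hi => by omega
  | n + 1, 0, _ => by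
    rw [dx_zero, pc_mod (ha n)]
    rfl
  | n + 1, i + 1, hi => by
    rw [← dx_div, pc_div (ha n), dx_pc a ha n i (by omega)]
    congr 1
    omega

lemma tab_sound {P : Par} {tbl g N : ℕ} (h : tabB P tbl g N = true) (m k l : ℕ) (hm1 : 1 ≤ m)
    (hm : m < N) (hk : k ≤ N) (hl : l ≤ N) :
    (tdg tbl g ((g + 1) * (256 * m + 16 * k + l)) : ℝ) - 2 ^ g = cv P m k l := by
  obtain ⟨m, rfl⟩ : ∃ m', m = m' + 1 := ⟨m - 1, by omega⟩
  have h1 := all_of_rec (fun m =>
    Nat.rec (motive := fun _ => Bool) true (fun k ihk => Bool.rec (motive := fun _ => Bool) false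
      (Nat.rec (motive := fun _ => Bool) true (fun l ihl => Bool.rec (motive := fun _ => Bool) false
        (Nat.beq (Nat.add (tdg tbl g (Nat.mul (Nat.succ g)
            (Nat.add (Nat.add (Nat.mul 256 (Nat.succ m)) (Nat.mul 16 k)) l)))
            (dig P P.tn (idx P (Nat.succ m) k l)))
          (Nat.add (Nat.pow 2 g) (dig P P.tp (idx P (Nat.succ m) k l))))
        ihl) (Nat.succ N)) ihk) (Nat.succ N)) (N - 1) h m (by omega)
  have h2 := all_of_rec (fun k =>
      Nat.rec (motive := fun _ => Bool) true (fun l ihl => Bool.rec (motive := fun _ => Bool) false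
        (Nat.beq (Nat.add (tdg tbl g (Nat.mul (Nat.succ g)
            (Nat.add (Nat.add (Nat.mul 256 (Nat.succ m)) (Nat.mul 16 k)) l)))
            (dig P P.tn (idx P (Nat.succ m) k l)))
          (Nat.add (Nat.pow 2 g) (dig P P.tp (idx P (Nat.succ m) k l))))
        ihl) (Nat.succ N)) (N + 1) h1 k (by omega)
  have h3 := all_of_rec (fun l =>
        (Nat.beq (Nat.add (tdg tbl g (Nat.mul (Nat.succ g)
            (Nat.add (Nat.add (Nat.mul 256 (Nat.succ m)) (Nat.mul 16 k)) l)))
            (dig P P.tn (idx P (Nat.succ m) k l)))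
          (Nat.add (Nat.pow 2 g) (dig P P.tp (idx P (Nat.succ m) k l)))))
        (N + 1) h2 l (by omega)
  have h4 : tdg tbl g ((g + 1) * (256 * (m + 1) + 16 * k + l)) + dig P P.tn (idx P (m + 1) k l)
      = 2 ^ g + dig P P.tp (idx P (m + 1) k l) := Nat.eq_of_beq_eq_true h3
  have h5 : (tdg tbl g ((g + 1) * (256 * (m + 1) + 16 * k + l)) : ℝ)
      + dig P P.tn (idx P (m + 1) k l) = 2 ^ g + dig P P.tp (idx P (m + 1) k l) := by
    exact_mod_cast h4
  unfold cv
  linarith

lemma sum_anti (f : ℕ → ℕ → ℝ) (X Y : ℕ → ℝ) : ∀ n : ℕ,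
    ∑ I ∈ range n, ∑ J ∈ range n, (if J < I then f I J else if I < J then -f J I else 0)
      * (X I * Y J) = ∑ I ∈ range n, ∑ J ∈ range I, f I J * (X I * Y J - Y I * X J)
  | 0 => by simp
  | n + 1 => by
    rw [Finset.sum_range_succ (fun I => ∑ J ∈ range I, f I J * (X I * Y J - Y I * X J)) n,
      ← sum_anti f X Y n, Finset.sum_range_succ]
    have e1 : ∀ I ∈ range n, ∑ J ∈ range (n + 1),
        (if J < I then f I J else if I < J then -f J I else 0) * (X I * Y J)
        = ∑ J ∈ range n, (if J < I then f I J else if I < J then -f J I else 0) * (X I * Y J)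
          + -f n I * (X I * Y n) := by
      intro I hI
      have hI' := Finset.mem_range.mp hI
      rw [Finset.sum_range_succ, if_neg (by omega), if_pos hI']
    rw [Finset.sum_congr rfl e1, Finset.sum_add_distrib, add_assoc]
    congr 1
    rw [Finset.sum_range_succ, if_neg (by omega), if_neg (by omega), zero_mul, add_zero,
      ← Finset.sum_add_distrib]
    apply Finset.sum_congr rfl
    intro J hJ
    have hJ' := Finset.mem_range.mp hJ
    rw [if_pos hJ']
    ring

/-- **Soundness of the check at one configuration.** -/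
theorem leaf_sound {tbl g K W b c t l e s0 s2 : ℕ} (P : Par) (ok : Ok K W b c t l)
    (hlt : l ≤ t) (ok2 : Ok2 K W b c e g s0) (hW : 1 ≤ W) (hW16 : W < 16)
    (htab : tabB P tbl g W = true) (a : ℕ → ℕ) (L : ℕ) (haN : ∀ i, a i ≤ W)
    (h : leafN tbl g K W b c t l e s0 s2 (pc a W) L = true) (X Y : ℕ → ℝ) (B : ℝ)
    (hB : ∀ i, X i ^ 2 + Y i ^ 2 ≤ B) : 2 * Fsum P a X Y W ≤ B * s2 := by
  have ha16 : ∀ i, a i < 16 := fun i => by have := haN i; omega
  have h1 : leafN tbl g K W b c t l e s0 s2 (pc a W) L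
    = Bool.rec (motive := fun _ => Bool) false
      (fm K W e g (fun P Q => ren K W W W (b + 1) c s0 0
        ((P + 2 ^ e * dgL K W W L + (2 ^ s0 * BN K W W b + CJ K W W c)) - 2 ^ g * Q)
        (elim K W b c t l (W - 1))) W (fA tbl g K W W (pc a W)) (fA tbl g K W W (pc a W)) L 0 0)
      (Nat.ble (dsum W L) s2) := rfl
  rw [h1, brec, Bool.and_eq_true, fA_eq] at h
  obtain ⟨h2, h3⟩ := h
  have h2' := Nat.le_of_ble_eq_true h2
  rw [dsum_eq] at h2'
  set α := al tbl g (pc a W) with hα
  have h2g : (2 : ℕ) ^ (g + 1) = 2 * 2 ^ g := by rw [pow_succ]; ring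
  have hαb : ∀ j < W, ∀ i < W, α j i ≤ 2 * 2 ^ g := by
    intro j _ i _
    simp only [hα, al]
    split_ifs
    · have := tdg_lt tbl g ((g + 1) * (256 * (j - i) + 16 * dx (pc a W) i + dx (pc a W) j))
      omega
    · omega
    · omega
  have hanti : ∀ j < W, ∀ i < W, α j i + α i j = 2 * 2 ^ g := by
    intro j _ i _
    simp only [hα, al]
    rcases lt_trichotomy i j with hij | hij | hij
    · rw [if_pos hij, if_neg (by omega), if_pos hij]
      have := tdg_lt tbl g ((g + 1) * (256 * (j - i) + 16 * dx (pc a W) i + dx (pc a W) j))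
      omega
    · subst hij
      rw [if_neg (by omega), if_neg (by omega)]
      omega
    · rw [if_neg (by omega), if_pos hij, if_pos hij]
      have := tdg_lt tbl g ((g + 1) * (256 * (i - j) + 16 * dx (pc a W) j + dx (pc a W) i))
      omega
  obtain ⟨hD, hform⟩ := form_spec ok hlt ok2 hW α hαb hanti L h3
  -- the bilinear form
  have hF : Fsum P a X Y W = ∑ i ∈ range W, ∑ j ∈ range W,
      ((α j i : ℝ) - 2 ^ g) * (X (W - 1 - i) * Y (W - 1 - j)) := by
    have e1 : Fsum P a X Y W = ∑ I ∈ range W, ∑ J ∈ range W,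
        (if J < I then cv P (I - J) (a I) (a J) else if I < J then -cv P (J - I) (a J) (a I)
          else 0) * (X I * Y J) :=
      (sum_anti (fun I J => cv P (I - J) (a I) (a J)) X Y W).symm
    rw [e1]
    rw [← Finset.sum_range_reflect]
    apply Finset.sum_congr rfl
    intro i hi
    have hi' := Finset.mem_range.mp hi
    rw [← Finset.sum_range_reflect]
    apply Finset.sum_congr rfl
    intro j hj
    have hj' := Finset.mem_range.mp hj
    congr 1
    have hdi := dx_pc a ha16 W i hi'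
    have hdj := dx_pc a ha16 W j hj'
    rcases lt_trichotomy i j with hij | hij | hij
    · rw [if_pos (by omega)]
      have e2 : (α j i : ℝ) - 2 ^ g = cv P (j - i) (a (W - 1 - i)) (a (W - 1 - j)) := by
        rw [← tab_sound htab (j - i) (a (W - 1 - i)) (a (W - 1 - j)) (by omega) (by omega)
          (haN _) (haN _), ← hdi, ← hdj]
        simp only [hα, al]
        rw [if_pos hij]
      rw [e2]
      congr 1
      omega
    · subst hij
      rw [if_neg (by omega), if_neg (by omega)]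
      have e2 : α i i = 2 ^ g := by
        simp only [hα, al]
        rw [if_neg (by omega), if_neg (by omega)]
      rw [e2]
      push_cast
      ring
    · rw [if_neg (by omega), if_pos (by omega)]
      have e3 : (α j i : ℝ) + α i j = 2 * 2 ^ g := by
        exact_mod_cast hanti j hj' i hi'
      have e2 : (α i j : ℝ) - 2 ^ g = cv P (i - j) (a (W - 1 - j)) (a (W - 1 - i)) := by
        rw [← tab_sound htab (i - j) (a (W - 1 - j)) (a (W - 1 - i)) (by omega) (by omega)
          (haN _) (haN _), ← hdi, ← hdj]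
        simp only [hα, al]
        rw [if_pos hij]
      have e4 : W - 1 - j - (W - 1 - i) = i - j := by omega
      rw [e4, ← e2]
      linarith
  have hB0 : 0 ≤ B := le_trans (add_nonneg (sq_nonneg _) (sq_nonneg _)) (hB 0)
  set u : ℕ → ℝ := fun i => X (W - 1 - i) with hu
  set v : ℕ → ℝ := fun i => Y (W - 1 - i) with hv
  have huv : ∀ i, u i ^ 2 + v i ^ 2 ≤ B := fun i => hB _
  have hfv := hform v
  set w : ℕ → ℝ := fun i => ∑ j ∈ range W, ((α j i : ℝ) - 2 ^ g) * v j with hw
  have hF2 : Fsum P a X Y W = ∑ i ∈ range W, u i * w i := by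
    rw [hF]
    apply Finset.sum_congr rfl
    intro i _
    simp only [hw]
    rw [Finset.mul_sum]
    apply Finset.sum_congr rfl
    intro j _
    simp only [hu, hv]
    ring
  have he0 : (0 : ℝ) < 2 ^ e := by positivity
  have hterm : ∀ i ∈ range W, 2 * (u i * w i)
      ≤ (dL L i : ℝ) * u i ^ 2 + (EI e L i : ℝ) * w i ^ 2 / 2 ^ e := by
    intro i hi
    have hi' := Finset.mem_range.mp hi
    have hd := hD i hi'
    have hdR : (1 : ℝ) ≤ dL L i := by exact_mod_cast hd
    have hED : (2 : ℝ) ^ e ≤ EI e L i * dL L i := by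
      have e1 := Nat.div_add_mod (2 ^ e) (dL L i)
      have e2 := Nat.mod_lt (2 ^ e) (show 0 < dL L i by omega)
      have e3 : 2 ^ e ≤ EI e L i * dL L i := by
        unfold EI
        rw [add_mul, one_mul, mul_comm]
        omega
      exact_mod_cast e3
    have hd0 : (0 : ℝ) < dL L i := by linarith
    have h5 : 1 / (dL L i : ℝ) ≤ (EI e L i : ℝ) / 2 ^ e := by
      rw [div_le_div_iff₀ hd0 he0, one_mul]
      exact hED
    have h6 : 1 / (dL L i : ℝ) * w i ^ 2 ≤ (EI e L i : ℝ) / 2 ^ e * w i ^ 2 :=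
      mul_le_mul_of_nonneg_right h5 (sq_nonneg _)
    have h7 : 0 ≤ (dL L i : ℝ) * (u i - w i / dL L i) ^ 2 := by positivity
    have h8 : (dL L i : ℝ) * (u i - w i / dL L i) ^ 2
        = (dL L i : ℝ) * u i ^ 2 - 2 * (u i * w i) + 1 / (dL L i : ℝ) * w i ^ 2 := by
      field_simp
      ring
    rw [h8] at h7
    have h9 : (EI e L i : ℝ) * w i ^ 2 / 2 ^ e = (EI e L i : ℝ) / 2 ^ e * w i ^ 2 := by ring
    rw [h9]
    linarith
  have hsum := Finset.sum_le_sum hterm
  rw [← Finset.mul_sum, ← hF2, Finset.sum_add_distrib, ← Finset.sum_div] at hsum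
  have h10 : (∑ i ∈ range W, (EI e L i : ℝ) * w i ^ 2) / 2 ^ e
      ≤ ∑ j ∈ range W, (dL L j : ℝ) * v j ^ 2 := by
    rw [div_le_iff₀ he0, mul_comm]
    exact hfv
  have h11 : ∑ i ∈ range W, (dL L i : ℝ) * u i ^ 2 + ∑ j ∈ range W, (dL L j : ℝ) * v j ^ 2
      ≤ (∑ i ∈ range W, (dL L i : ℝ)) * B := by
    rw [← Finset.sum_add_distrib, Finset.sum_mul]
    apply Finset.sum_le_sum
    intro i _
    have := mul_le_mul_of_nonneg_left (huv i) (show (0 : ℝ) ≤ dL L i from Nat.cast_nonneg _)
    linarith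
  have h12 : (∑ i ∈ range W, (dL L i : ℝ)) ≤ s2 := by exact_mod_cast h2'
  have h13 := mul_le_mul_of_nonneg_right h12 hB0
  linarith

end Pool.Agent.TH502.FA
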